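import Pool.Agent.CG.L.Av

/-!
# CG, PART I: functions with small oscillation at large scales; the excess
-/

set_option autoImplicit false

namespace Pool.Agent.CG.I

open MeasureTheory Set Filter Topology
open scoped ContDiff ENNReal

variable {N m : ℕ}

/-- Scale invariant Hölder estimates at all large scales: the function is constant. -/
theorem ae_const (G : Carnot N m) {F : Pt N → Hv m} {x0 : Pt N} {C β : ℝ} (hβ : 0 < β)
    (h : ∀ R : ℝ, 0 < R → ∃ F' : Pt N → Hv m, (∀ᵐ y, y ∈ G.B x0 (R / 2) → F y = F' y) ∧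
      ∀ y ∈ G.B x0 (R / 2), ∀ z ∈ G.B x0 (R / 2), ‖F' y - F' z‖ ≤ C * (G.di y z / R) ^ β) :
    ∃ v : Hv m, ∀ᵐ y, F y = v := by
  have h' : ∀ n : ℕ, ∃ F' : Pt N → Hv m, (∀ᵐ y, y ∈ G.B x0 (((n : ℝ) + 1) / 2) → F y = F' y) ∧
      ∀ y ∈ G.B x0 (((n : ℝ) + 1) / 2), ∀ z ∈ G.B x0 (((n : ℝ) + 1) / 2),
        ‖F' y - F' z‖ ≤ C * (G.di y z / ((n : ℝ) + 1)) ^ β := fun n => h _ (by positivity)
  choose F' hF1 hF2 using h'
  have hall := ae_all_iff.2 hF1
  obtain ⟨y0, hy0⟩ := hall.exists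
  refine ⟨F y0, ?_⟩
  filter_upwards [hall] with y hy
  have hlim : Tendsto (fun n : ℕ => C * (G.di y y0 / ((n : ℝ) + 1)) ^ β) atTop (𝓝 0) := by
    have h1 : Tendsto (fun n : ℕ => G.di y y0 / ((n : ℝ) + 1)) atTop (𝓝 0) :=
      tendsto_const_nhds.div_atTop
        (tendsto_atTop_add_const_right _ _ tendsto_natCast_atTop_atTop)
    have h2 := (h1.rpow_const (p := β) (Or.inr hβ.le)).const_mul C
    rwa [Real.zero_rpow hβ.ne', mul_zero] at h2
  have hev : ∀ᶠ n : ℕ in atTop, ‖F y - F y0‖ ≤ C * (G.di y y0 / ((n : ℝ) + 1)) ^ β := by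
    obtain ⟨n0, hn0⟩ := exists_nat_gt (2 * max (G.di x0 y) (G.di x0 y0))
    filter_upwards [eventually_ge_atTop n0] with n hn
    have hn' : (n0 : ℝ) ≤ n := by exact_mod_cast hn
    have m1 : y ∈ G.B x0 (((n : ℝ) + 1) / 2) := by
      rw [G.mem_B]
      have := le_max_left (G.di x0 y) (G.di x0 y0)
      linarith
    have m2 : y0 ∈ G.B x0 (((n : ℝ) + 1) / 2) := by
      rw [G.mem_B]
      have := le_max_right (G.di x0 y) (G.di x0 y0)
      linarith
    rw [hy n m1, hy0 n m2]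
    exact hF2 n y m1 y0 m2
  have h0 : ‖F y - F y0‖ ≤ 0 := ge_of_tendsto hlim hev
  exact sub_eq_zero.1 (norm_le_zero_iff.1 h0)

/-- The excess is small if the slope in the direction `ξ` is close to one on most of the ball. -/
theorem excess (G : Carnot N m) {F : Pt N → Hv m} (hFm : AEStronglyMeasurable F volume)
    (hb : ∀ᵐ x, ‖F x‖ ≤ 1) {ξ : Hv m} (hξ : ‖ξ‖ = 1) {e' η : ℝ} (he' : 0 < e') {x0 : Pt N} {R : ℝ}
    (hR : 0 < R)
    (h : volume.real (G.B x0 R ∩ {y | inner ℝ (F y) ξ ≤ 1 - e'}) ≤ η * volume.real (G.B x0 R)) :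
    av G x0 R (fun y => ‖F y - ξ‖ ^ 2) ≤ 2 * e' + 4 * η := by
  set S : Set (Pt N) := {y | inner ℝ (F y) ξ ≤ 1 - e'} with hS
  have hSm : NullMeasurableSet S volume :=
    nullMeasurableSet_le (hFm.inner aestronglyMeasurable_const).aemeasurable aemeasurable_const
  have hBm : MeasurableSet (G.B x0 R) := L.meas_B G x0 R
  have hBf : volume (G.B x0 R) ≠ ⊤ := (G.vol_B_lt_top x0 R).ne
  have hVp := L.volr_B_pos G x0 hR
  have hsq : ∀ᵐ y, ‖F y - ξ‖ ^ 2 ≤ 2 * (1 - inner ℝ (F y) ξ) := by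
    filter_upwards [hb] with y hy
    rw [norm_sub_sq_real, hξ]
    have : ‖F y‖ ^ 2 ≤ 1 := by
      have := pow_le_pow_left₀ (norm_nonneg (F y)) hy 2
      linarith
    linarith
  have h4 : ∀ᵐ y, ‖‖F y - ξ‖ ^ 2‖ ≤ 4 := by
    filter_upwards [hb] with y hy
    rw [Real.norm_of_nonneg (by positivity)]
    have h1 : ‖F y - ξ‖ ≤ 2 := (norm_sub_le _ _).trans (by linarith)
    have := pow_le_pow_left₀ (norm_nonneg _) h1 2
    linarith
  have hint : IntegrableOn (fun y => ‖F y - ξ‖ ^ 2) (G.B x0 R) := by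
    have : IsFiniteMeasure (volume.restrict (G.B x0 R)) :=
      ⟨by rw [Measure.restrict_apply_univ]; exact G.vol_B_lt_top x0 R⟩
    exact Integrable.of_bound ((hFm.restrict.sub aestronglyMeasurable_const).norm.pow 2) 4
      (ae_restrict_of_ae h4)
  have hsplit := integral_inter_add_sdiff₀ (μ := volume) hSm hint
  have hi1 : ∫ y in G.B x0 R ∩ S, ‖F y - ξ‖ ^ 2 ≤ 4 * volume.real (G.B x0 R ∩ S) := by
    refine (le_abs_self _).trans ?_
    exact norm_setIntegral_le_of_norm_le_const_ae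
      (lt_of_le_of_lt (measure_mono inter_subset_left) (G.vol_B_lt_top x0 R)) (ae_restrict_of_ae h4)
  have hi2 : ∫ y in G.B x0 R \ S, ‖F y - ξ‖ ^ 2 ≤ 2 * e' * volume.real (G.B x0 R \ S) := by
    refine (le_abs_self _).trans ?_
    refine norm_setIntegral_le_of_norm_le_const_ae (f := fun y => ‖F y - ξ‖ ^ 2) (C := 2 * e')
      (lt_of_le_of_lt (measure_mono sdiff_subset) (G.vol_B_lt_top x0 R)) ?_
    rw [ae_restrict_iff'₀ (hBm.nullMeasurableSet.diff hSm)]
    filter_upwards [hsq] with y hy hyS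
    have h5 : 1 - e' < inner ℝ (F y) ξ := by
      by_contra hcon
      push Not at hcon
      exact hyS.2 hcon
    rw [Real.norm_of_nonneg (by positivity)]
    linarith
  have hi3 : volume.real (G.B x0 R \ S) ≤ volume.real (G.B x0 R) :=
    measureReal_mono sdiff_subset hBf
  unfold av
  rw [← hsplit]
  rw [inv_mul_le_iff₀ hVp]
  have h6 : 2 * e' * volume.real (G.B x0 R \ S) ≤ 2 * e' * volume.real (G.B x0 R) :=
    mul_le_mul_of_nonneg_left hi3 (by positivity)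
  nlinarith

end Pool.Agent.CG.I
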