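import Pool.Agent.CG.Euc
import Pool.Agent.CG.A.Ell

/-!
# CG-I-E0: the step one group: distances and difference points
-/

set_option autoImplicit false

namespace Pool.Agent.CG

open MeasureTheory Set Filter Topology
open scoped ContDiff ENNReal

variable {m : ℕ}

/-- the point `t ξ` -/
def pv (t : ℝ) (ξ : Hv m) : Pt m := fun k => t * ξ k

theorem euc_mul (x y : Pt m) : (euc m).mul x y = x + y := rfl

theorem ell_euc_le (g : Pt m) : (euc m).ell g ≤ ∑ k, |g k| := by
  have key : ∀ s : Finset (Fin m),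
      (euc m).ell (∑ k ∈ s, g k • (euc m).e k) ≤ ∑ k ∈ s, |g k| := by
    intro s
    induction s using Finset.induction_on with
    | empty => simpa using (euc m).ell_zero.le
    | insert a s ha ih =>
      rw [Finset.sum_insert ha, Finset.sum_insert ha, ← euc_mul]
      refine ((euc m).ell_mul_le _ _).trans ?_
      exact add_le_add ((euc m).ell_smul_e_le a (g a)) ih
  have e : ∑ k, g k • (euc m).e k = g := by
    funext i
    rw [Finset.sum_apply]
    have : ∀ k : Fin m, (g k • (euc m).e k) i = if k = i then g i else 0 := by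
      intro k
      have h1 : (euc m).e k = Pi.single k 1 := rfl
      rw [h1, Pi.smul_apply, smul_eq_mul]
      by_cases h : k = i
      · subst h
        simp
      · rw [if_neg h, Pi.single_eq_of_ne (Ne.symm h), mul_zero]
    simp only [this]
    simp
  have := key Finset.univ
  rwa [e] at this

private theorem abs_le_of_unit {ξ : Hv m} (hξ : ‖ξ‖ = 1) (k : Fin m) : |ξ k| ≤ 1 := by
  have := PiLp.norm_apply_le ξ k
  rw [hξ, Real.norm_eq_abs] at this
  exact this

theorem ell_pv (t : ℝ) {ξ : Hv m} (hξ : ‖ξ‖ = 1) : (euc m).ell (pv t ξ) ≤ m * |t| := by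
  refine (ell_euc_le _).trans ?_
  have : ∀ k ∈ (Finset.univ : Finset (Fin m)), |pv t ξ k| ≤ |t| := by
    intro k _
    unfold pv
    rw [abs_mul]
    have := abs_le_of_unit hξ k
    nlinarith [abs_nonneg t]
  refine (Finset.sum_le_sum this).trans (le_of_eq ?_)
  simp

theorem di_pv (t : ℝ) {ξ : Hv m} (hξ : ‖ξ‖ = 1) (y : Pt m) :
    (euc m).di y ((euc m).mul (pv t ξ) y) ≤ m * |t| := by
  have h : (euc m).di y ((euc m).mul (pv t ξ) y) = (euc m).ell (pv t ξ) := by
    unfold Carnot.di
    congr 1
    rw [euc_mul, euc_mul]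
    abel
  rw [h]
  exact ell_pv t hξ

theorem lin_pv (a : Hv m) (t : ℝ) (ξ : Hv m) (y : Pt m) :
    (∑ k, a k * ((euc m).mul (pv t ξ) y) ((euc m).hor k)) - ∑ k, a k * y ((euc m).hor k) =
      t * inner ℝ a ξ := by
  rw [← Finset.sum_sub_distrib, PiLp.inner_apply, Finset.mul_sum]
  refine Finset.sum_congr rfl fun k _ => ?_
  have h1 : (euc m).hor k = k := rfl
  rw [h1, euc_mul]
  simp only [Pi.add_apply, pv, RCLike.inner_apply, conj_trivial]
  ring

theorem m_pos_of_unit {ξ : Hv m} (hξ : ‖ξ‖ = 1) : (1 : ℝ) ≤ m := by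
  rcases Nat.eq_zero_or_pos m with h | h
  · subst h
    have : ξ = 0 := Subsingleton.elim _ _
    rw [this, norm_zero] at hξ
    exact absurd hξ (by norm_num)
  · exact_mod_cast h

end Pool.Agent.CG
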