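import Mathlib

/-!
# CG-I-E1 (helper66): an L² convergence lemma (pure measure theory)

PLAN.  Fix `τ ∈ (0, 1)`.  Pointwise `g² ≤ τ² + τ^{-b} (min 1 g)^b g²` (if `g ≤ τ`: `g² ≤ τ²`; if `g > τ`: `(min 1 g)^b ≥ τ^b`), and `g ≤ 1 + g²`.  So with
`I_n = ∫ g_n²`, `V = μ.real univ`: `I_n ≤ τ² V + τ^{-b} (ε_n / c) (V + I_n)`.  For large `n`: `τ^{-b} ε_n / c ≤ 1/2`, so
`I_n ≤ 2 τ² V + 2 τ^{-b} (ε_n / c) V`, and the last term tends to `0`; so `limsup I_n ≤ 2 τ² V` for every `τ`.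
All functions are integrable: `g_n ∈ L² ⊆ L¹` (finite measure), `(min 1 g)^b ≤ 1`.
-/

set_option autoImplicit false

namespace Pool.Agent.CG

open MeasureTheory Set Filter Topology

private theorem l2_pt {b τ g : ℝ} (hb : 0 ≤ b) (hτ : 0 < τ) (hτ1 : τ < 1) (hg : 0 ≤ g) :
    g ^ 2 ≤ τ ^ 2 + τ ^ (-b) * ((min 1 g) ^ b * g ^ 2) := by
  have hm : 0 ≤ min 1 g := le_min zero_le_one hg
  have h1 : 0 ≤ τ ^ (-b) * ((min 1 g) ^ b * g ^ 2) :=
    mul_nonneg (Real.rpow_nonneg hτ.le _) (mul_nonneg (Real.rpow_nonneg hm _) (sq_nonneg _))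
  rcases le_total g τ with h | h
  · have : g ^ 2 ≤ τ ^ 2 := pow_le_pow_left₀ hg h 2
    linarith
  · have h2 : τ ≤ min 1 g := le_min hτ1.le h
    have h3 : τ ^ b ≤ (min 1 g) ^ b := Real.rpow_le_rpow hτ.le h2 hb
    have h4 : τ ^ (-b) * τ ^ b = 1 := by
      rw [← Real.rpow_add hτ, neg_add_cancel, Real.rpow_zero]
    have h5 : 1 ≤ τ ^ (-b) * (min 1 g) ^ b := by
      have h7 := mul_le_mul_of_nonneg_left h3 (Real.rpow_nonneg hτ.le (-b))
      rw [h4] at h7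
      exact h7
    have h6 : g ^ 2 ≤ τ ^ (-b) * (min 1 g) ^ b * g ^ 2 := le_mul_of_one_le_left (sq_nonneg g) h5
    nlinarith [sq_nonneg τ]

theorem l2_small {α : Type*} [MeasurableSpace α] (μ : Measure α) [IsFiniteMeasure μ] {b c : ℝ}
    (hb : 0 ≤ b) (hc : 0 < c) {g : ℕ → α → ℝ} (hg : ∀ n, MemLp (g n) 2 μ) (h0 : ∀ n x, 0 ≤ g n x)
    {ε : ℕ → ℝ} (hε : Tendsto ε atTop (𝓝 0)) (hε0 : ∀ n, 0 ≤ ε n)
    (h : ∀ n, c * ∫ x, (min 1 (g n x)) ^ b * g n x ^ 2 ∂μ ≤ ε n * ∫ x, g n x ∂μ) :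
    Tendsto (fun n => ∫ x, g n x ^ 2 ∂μ) atTop (𝓝 0) := by
  obtain ⟨V, hV⟩ : ∃ V : ℝ, V = μ.real univ := ⟨_, rfl⟩
  have hV0 : 0 ≤ V := by rw [hV]; exact measureReal_nonneg
  obtain ⟨I, hI⟩ : ∃ I : ℕ → ℝ, I = fun n => ∫ x, g n x ^ 2 ∂μ := ⟨_, rfl⟩
  have hIn : ∀ n, I n = ∫ x, g n x ^ 2 ∂μ := fun n => by rw [hI]
  have hI0 : ∀ n, 0 ≤ I n := fun n => by
    rw [hIn]
    exact integral_nonneg fun x => sq_nonneg _
  have hsq : ∀ n, Integrable (fun x => g n x ^ 2) μ := fun n => (hg n).integrable_sq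
  have hint : ∀ n, Integrable (g n) μ := fun n => (hg n).integrable one_le_two
  have hmi : ∀ n, Integrable (fun x => (min 1 (g n x)) ^ b * g n x ^ 2) μ := by
    intro n
    refine (hsq n).mono' ?_ ?_
    · have h1 : AEMeasurable (g n) μ := (hg n).aestronglyMeasurable.aemeasurable
      exact (((aemeasurable_const.min h1).pow_const b).mul (h1.pow_const 2)).aestronglyMeasurable
    · refine Eventually.of_forall fun x => ?_
      have h1 : 0 ≤ min 1 (g n x) := le_min zero_le_one (h0 n x)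
      have h2 : (min 1 (g n x)) ^ b ≤ 1 := Real.rpow_le_one h1 (min_le_left _ _) hb
      rw [Real.norm_of_nonneg (mul_nonneg (Real.rpow_nonneg h1 _) (sq_nonneg _))]
      exact mul_le_of_le_one_left (sq_nonneg _) h2
  have hg1 : ∀ n, ∫ x, g n x ∂μ ≤ V + I n := by
    intro n
    have h1 : ∫ x, g n x ∂μ ≤ ∫ x, (1 + g n x ^ 2) ∂μ := by
      refine integral_mono (hint n) ((integrable_const 1).add (hsq n)) fun x => ?_
      dsimp only
      nlinarith [sq_nonneg (g n x - 1), sq_nonneg (g n x)]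
    rw [integral_add (integrable_const 1) (hsq n), integral_const, smul_eq_mul, mul_one,
      ← hV, ← hIn] at h1
    exact h1
  have key : ∀ (τ : ℝ), 0 < τ → τ < 1 → ∀ n, I n ≤ τ ^ 2 * V + τ ^ (-b) / c * ε n * (V + I n) := by
    intro τ hτ hτ1 n
    have h1 : I n ≤ ∫ x, (τ ^ 2 + τ ^ (-b) * ((min 1 (g n x)) ^ b * g n x ^ 2)) ∂μ := by
      rw [hIn]
      exact integral_mono (hsq n) ((integrable_const _).add ((hmi n).const_mul _))
        fun x => l2_pt hb hτ hτ1 (h0 n x)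
    rw [integral_add (integrable_const _) ((hmi n).const_mul _), integral_const,
      integral_const_mul, smul_eq_mul, ← hV] at h1
    have h2 : ∫ x, (min 1 (g n x)) ^ b * g n x ^ 2 ∂μ ≤ ε n * (V + I n) / c := by
      rw [le_div_iff₀ hc, mul_comm]
      exact (h n).trans (mul_le_mul_of_nonneg_left (hg1 n) (hε0 n))
    have h3 := mul_le_mul_of_nonneg_left h2 (Real.rpow_nonneg hτ.le (-b))
    calc I n ≤ V * τ ^ 2 + τ ^ (-b) * ∫ x, (min 1 (g n x)) ^ b * g n x ^ 2 ∂μ := h1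
      _ ≤ V * τ ^ 2 + τ ^ (-b) * (ε n * (V + I n) / c) := by linarith
      _ = τ ^ 2 * V + τ ^ (-b) / c * ε n * (V + I n) := by ring
  have goal : Tendsto I atTop (𝓝 0) := by
    rw [Metric.tendsto_atTop]
    intro δ hδ
    obtain ⟨τ, hτ, hτ1, hτV⟩ : ∃ τ : ℝ, 0 < τ ∧ τ < 1 ∧ τ ^ 2 * V ≤ δ / 8 := by
      have hpos : 0 < δ / (8 * (V + 1)) := by positivity
      refine ⟨min (1 / 2) (Real.sqrt (δ / (8 * (V + 1)))), ?_, ?_, ?_⟩
      · exact lt_min (by norm_num) (Real.sqrt_pos.2 hpos)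
      · exact lt_of_le_of_lt (min_le_left _ _) (by norm_num)
      · have h1 : (min (1 / 2) (Real.sqrt (δ / (8 * (V + 1))))) ^ 2 ≤ δ / (8 * (V + 1)) := by
          calc (min (1 / 2) (Real.sqrt (δ / (8 * (V + 1))))) ^ 2 ≤
              (Real.sqrt (δ / (8 * (V + 1)))) ^ 2 :=
                pow_le_pow_left₀ (le_min (by norm_num) (Real.sqrt_nonneg _)) (min_le_right _ _) 2
            _ = _ := Real.sq_sqrt hpos.le
        calc _ ≤ δ / (8 * (V + 1)) * V := mul_le_mul_of_nonneg_right h1 hV0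
          _ ≤ δ / (8 * (V + 1)) * (V + 1) := mul_le_mul_of_nonneg_left (by linarith) hpos.le
          _ = δ / 8 := by field_simp
    obtain ⟨k, hk⟩ : ∃ k : ℝ, k = τ ^ (-b) / c := ⟨_, rfl⟩
    have hk0 : 0 ≤ k := by
      rw [hk]
      exact div_nonneg (Real.rpow_nonneg hτ.le _) hc.le
    have ht : Tendsto (fun n => k * ε n) atTop (𝓝 0) := by
      simpa using hε.const_mul k
    have e1 : ∀ᶠ n in atTop, k * ε n < min (1 / 2) (δ / (8 * (V + 1))) :=
      ht.eventually (gt_mem_nhds (lt_min (by norm_num) (by positivity)))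
    obtain ⟨n0, hn0⟩ := eventually_atTop.1 e1
    refine ⟨n0, fun n hn => ?_⟩
    have h1 := hn0 n hn
    have h2 : k * ε n ≤ 1 / 2 := h1.le.trans (min_le_left _ _)
    have h3 : k * ε n ≤ δ / (8 * (V + 1)) := h1.le.trans (min_le_right _ _)
    have h4 := key τ hτ hτ1 n
    rw [← hk] at h4
    have h5 : k * ε n * V ≤ δ / 8 := by
      have hpos : 0 < δ / (8 * (V + 1)) := by positivity
      calc k * ε n * V ≤ δ / (8 * (V + 1)) * V := mul_le_mul_of_nonneg_right h3 hV0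
        _ ≤ δ / (8 * (V + 1)) * (V + 1) := mul_le_mul_of_nonneg_left (by linarith) hpos.le
        _ = δ / 8 := by field_simp
    have h6 : k * ε n * I n ≤ 1 / 2 * I n := mul_le_mul_of_nonneg_right h2 (hI0 n)
    rw [Real.dist_eq, sub_zero, abs_of_nonneg (hI0 n)]
    nlinarith
  rw [hI] at goal
  exact goal

end Pool.Agent.CG
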