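import Pool.Agent.CG.F.Reg

/-!
# CG-I-E2 (helper66): regularised structure functions with bounds away from the zero slope

PLAN.  `A` with weight `W`, `W 1 = 1`.  `wt_one_bds`: for `0 < s ≤ 2`: `W s ≥ 2^{-a} (min 1 s)^b` (`s ≤ 1`: `Wt.hi s 1`: `1 ≤ (1/s)^b W s`;
`1 ≤ s ≤ 2`: `Wt.lo 1 s`: `s^{-a} ≤ W s`), and for `1/4 ≤ s ≤ 2`: `W s ≤ 4^a 2^b` (`s ≤ 1`: `Wt.lo s 1`; `s ≥ 1`: `Wt.hi 1 s`).
`reg_struct`: `exists_trunc` with `k = 2`: `A'` with weight `c₁ W(min t 2)` and constant `L₁`, `A' = A` on `‖ξ‖ ≤ 2`; `wt_min`; `exists_reg` for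
`A'` (constant `L₁`): `A'_k` with weight `c₂ c₁ W(min (max (k+1)⁻¹ (min t (k+1))) 2)` and constant `L₂`, converging to `A'` uniformly on bounded sets.
Put `Ak k = A'_{k+4}` (so `(k+1)⁻¹ ≤ 1/4`, `k + 1 ≥ 2`).  With `M = max ‖ξ‖ ‖ζ‖ ≥ ‖ξ - ζ‖/2` and `s = min (max .. (min M ..)) 2 ∈ (0, 2]`:
`s ≥ min M 2`, so `min 1 s ≥ min 1 M ≥ (min 1 ‖ξ - ζ‖)/2`, `W s ≥ 2^{-a} 2^{-b} (min 1 ‖ξ - ζ‖)^b`; if `M ≥ 1/4` then `s ∈ [1/4, 2]` and
`W s ∈ [2^{-a} 4^{-b}, 4^a 2^b]`.  (`ξ = ζ` is trivial; `M > 0` otherwise.)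
-/

set_option autoImplicit false

namespace Pool.Agent.CG

open MeasureTheory Set Filter Topology
open scoped ContDiff ENNReal

variable {m : ℕ}

theorem wt_one_bds {a b : ℝ} (ha : 0 ≤ a) (hb : 0 ≤ b) {W : ℝ → ℝ} (hW : Wt a b W) (h1 : W 1 = 1) {s : ℝ}
    (hs : 0 < s) (hs2 : s ≤ 2) :
    (2 : ℝ) ^ (-a) * (min 1 s) ^ b ≤ W s ∧ (1 / 4 ≤ s → W s ≤ (4 : ℝ) ^ a * 2 ^ b) := by
  have h4a : 1 ≤ (4 : ℝ) ^ a := Real.one_le_rpow (by norm_num) ha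
  have h2b : 1 ≤ (2 : ℝ) ^ b := Real.one_le_rpow (by norm_num) hb
  have h2a : (2 : ℝ) ^ (-a) ≤ 1 := Real.rpow_le_one_of_one_le_of_nonpos (by norm_num) (by linarith)
  rcases le_total s 1 with h | h
  · rw [min_eq_right h]
    have hi := hW.hi s 1 hs h
    have lo := hW.lo s 1 hs h
    rw [h1] at hi lo
    have hsb : 0 < s ^ b := Real.rpow_pos_of_pos hs b
    have hsa : 0 < s ^ a := Real.rpow_pos_of_pos hs a
    have e1 : (1 / s) ^ b = (s ^ b)⁻¹ := by rw [one_div, Real.inv_rpow hs.le]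
    have e2 : (1 / s) ^ (-a) = s ^ a := by
      rw [one_div, Real.inv_rpow hs.le, Real.rpow_neg hs.le, inv_inv]
    rw [e1] at hi
    rw [e2] at lo
    constructor
    · have h5 : s ^ b ≤ W s := by
        have h6 : s ^ b * 1 ≤ s ^ b * ((s ^ b)⁻¹ * W s) := mul_le_mul_of_nonneg_left hi hsb.le
        rwa [mul_one, ← mul_assoc, mul_inv_cancel₀ hsb.ne', one_mul] at h6
      calc (2 : ℝ) ^ (-a) * s ^ b ≤ 1 * s ^ b := mul_le_mul_of_nonneg_right h2a hsb.le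
        _ = s ^ b := one_mul _
        _ ≤ W s := h5
    · intro h4
      have h5 : (1 / 4 : ℝ) ^ a ≤ s ^ a := Real.rpow_le_rpow (by norm_num) h4 ha
      have h6 : (1 / 4 : ℝ) ^ a = ((4 : ℝ) ^ a)⁻¹ := by
        rw [one_div, Real.inv_rpow (by norm_num)]
      rw [h6] at h5
      have hWs : 0 < W s := hW.pos s hs
      have h7 : ((4 : ℝ) ^ a)⁻¹ * W s ≤ 1 := (mul_le_mul_of_nonneg_right h5 hWs.le).trans lo
      have h8 : W s ≤ (4 : ℝ) ^ a := by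
        have h9 : (4 : ℝ) ^ a * (((4 : ℝ) ^ a)⁻¹ * W s) ≤ (4 : ℝ) ^ a * 1 :=
          mul_le_mul_of_nonneg_left h7 (by linarith)
        rwa [mul_one, ← mul_assoc, mul_inv_cancel₀ (by linarith), one_mul] at h9
      calc W s ≤ (4 : ℝ) ^ a * 1 := by rw [mul_one]; exact h8
        _ ≤ (4 : ℝ) ^ a * 2 ^ b := mul_le_mul_of_nonneg_left h2b (by linarith)
  · rw [min_eq_left h, Real.one_rpow, mul_one]
    have hi := hW.hi 1 s one_pos h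
    have lo := hW.lo 1 s one_pos h
    rw [h1, div_one, mul_one] at hi lo
    constructor
    · refine le_trans ?_ lo
      exact Real.rpow_le_rpow_of_nonpos hs hs2 (by linarith)
    · intro _
      calc W s ≤ s ^ b := hi
        _ ≤ 2 ^ b := Real.rpow_le_rpow hs.le hs2 hb
        _ = 1 * 2 ^ b := (one_mul _).symm
        _ ≤ (4 : ℝ) ^ a * 2 ^ b := mul_le_mul_of_nonneg_right h4a (by linarith)

theorem reg_struct {a b L : ℝ} (ha0 : 0 ≤ a) (ha : a < 1) (hb : 0 ≤ b) (hL : 1 ≤ L) :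
    ∃ c0 C0 : ℝ, 0 < c0 ∧ 0 < C0 ∧ ∀ A : Hv m → Hv m, Nrm a b L A → ∃ Ak : ℕ → Hv m → Hv m,
      (∀ k, ∃ lam Lam : ℝ, 0 < lam ∧ UU lam Lam (Ak k)) ∧
      (∀ k ξ ζ, c0 * (min 1 ‖ξ - ζ‖) ^ b * ‖ξ - ζ‖ ^ 2 ≤ inner ℝ (Ak k ξ - Ak k ζ) (ξ - ζ)) ∧
      (∀ k ξ ζ, 1 / 4 ≤ max ‖ξ‖ ‖ζ‖ → c0 * ‖ξ - ζ‖ ^ 2 ≤ inner ℝ (Ak k ξ - Ak k ζ) (ξ - ζ) ∧
        ‖Ak k ξ - Ak k ζ‖ ≤ C0 * ‖ξ - ζ‖) ∧
      TendstoUniformlyOn Ak A atTop (Metric.closedBall 0 1) := by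
  obtain ⟨c1, hc1, L1, hL1, hT⟩ := exists_trunc (m := m) ha0 ha hb hL
  obtain ⟨c2, hc2, L2, hL2, hR⟩ := exists_reg (m := m) ha0 ha hb hL1
  have h2a : 0 < (2 : ℝ) ^ (-a) := Real.rpow_pos_of_pos (by norm_num) _
  have h4b : 0 < (1 / 4 : ℝ) ^ b := Real.rpow_pos_of_pos (by norm_num) _
  have h4a : 0 < (4 : ℝ) ^ a := Real.rpow_pos_of_pos (by norm_num) _
  have h2b : 0 < (2 : ℝ) ^ b := Real.rpow_pos_of_pos (by norm_num) _
  refine ⟨c2 * c1 * (2 ^ (-a) * (1 / 4) ^ b), L2 * (c2 * c1 * (4 ^ a * 2 ^ b)), by positivity,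
    by positivity, ?_⟩
  rintro A ⟨W, hW, hW1, hA⟩
  obtain ⟨A', hA', hAA⟩ := hT W A 2 (by norm_num) hW hA
  obtain ⟨Ak, hk1, hk2, hk3⟩ := hR (fun t => c1 * W (min t 2)) A'
    (wt_min ha0 hb hW hc1 (by norm_num)) hA'
  -- the basic estimate for the argument of the weight
  have key : ∀ (k : ℕ) (M : ℝ), 0 ≤ M → ∃ s : ℝ, 0 < s ∧ s ≤ 2 ∧ min M 2 ≤ s ∧
      min (max (((k + 4 : ℕ) : ℝ) + 1)⁻¹ (min M (((k + 4 : ℕ) : ℝ) + 1))) 2 = s := by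
    intro k M hM
    refine ⟨_, ?_, min_le_right _ _, ?_, rfl⟩
    · exact lt_min (lt_max_of_lt_left (by positivity)) (by norm_num)
    · refine le_min ?_ (min_le_right _ _)
      refine le_max_of_le_right (min_le_min le_rfl ?_)
      push_cast
      have : (0 : ℝ) ≤ k := Nat.cast_nonneg k
      linarith
  refine ⟨fun k => Ak (k + 4), fun k => hk2 (k + 4), ?_, ?_, ?_⟩
  · intro k ξ ζ
    have hM0 : 0 ≤ max ‖ξ‖ ‖ζ‖ := le_max_of_le_left (norm_nonneg _)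
    obtain ⟨s, hs0, hs2, hsM, hs⟩ := key k (max ‖ξ‖ ‖ζ‖) hM0
    have hm := (hk1 (k + 4)).mono ξ ζ
    simp only [hs] at hm
    have hd : ‖ξ - ζ‖ ≤ 2 * max ‖ξ‖ ‖ζ‖ := by
      have h1 := norm_sub_le ξ ζ
      have h2 := le_max_left ‖ξ‖ ‖ζ‖
      have h3 := le_max_right ‖ξ‖ ‖ζ‖
      linarith
    have hmin : (min 1 ‖ξ - ζ‖) / 2 ≤ min 1 s := by
      refine le_min ?_ ?_
      · have := min_le_left 1 ‖ξ - ζ‖
        linarith
      · refine le_trans (le_min ?_ ?_) hsM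
        · have := min_le_right 1 ‖ξ - ζ‖
          linarith
        · have := min_le_left 1 ‖ξ - ζ‖
          linarith
    have hmin0 : 0 ≤ min 1 ‖ξ - ζ‖ := le_min zero_le_one (norm_nonneg _)
    have h5 := (wt_one_bds ha0 hb hW hW1 hs0 hs2).1
    have h6 : (1 / 4 : ℝ) ^ b * (min 1 ‖ξ - ζ‖) ^ b ≤ (min 1 s) ^ b := by
      rw [← Real.mul_rpow (by norm_num) hmin0]
      refine Real.rpow_le_rpow (by positivity) ?_ hb
      refine le_trans ?_ hmin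
      linarith
    have h7 : (2 : ℝ) ^ (-a) * ((1 / 4 : ℝ) ^ b * (min 1 ‖ξ - ζ‖) ^ b) ≤ W s :=
      (mul_le_mul_of_nonneg_left h6 h2a.le).trans h5
    refine le_trans ?_ hm
    have h8 : c2 * c1 * (2 ^ (-a) * (1 / 4) ^ b) * min 1 ‖ξ - ζ‖ ^ b =
        c2 * (c1 * ((2 : ℝ) ^ (-a) * ((1 / 4 : ℝ) ^ b * (min 1 ‖ξ - ζ‖) ^ b))) := by ring
    rw [h8]
    refine mul_le_mul_of_nonneg_right ?_ (by positivity)
    refine mul_le_mul_of_nonneg_left ?_ hc2.le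
    exact mul_le_mul_of_nonneg_left h7 hc1.le
  · intro k ξ ζ h14
    have hM0 : 0 ≤ max ‖ξ‖ ‖ζ‖ := le_max_of_le_left (norm_nonneg _)
    obtain ⟨s, hs0, hs2, hsM, hs⟩ := key k (max ‖ξ‖ ‖ζ‖) hM0
    have hm := (hk1 (k + 4)).mono ξ ζ
    have hl := (hk1 (k + 4)).lip ξ ζ
    simp only [hs] at hm hl
    have hs14 : 1 / 4 ≤ s := le_trans (le_min h14 (by norm_num)) hsM
    have h5 := (wt_one_bds ha0 hb hW hW1 hs0 hs2).1
    have h6 := (wt_one_bds ha0 hb hW hW1 hs0 hs2).2 hs14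
    have h7 : (1 / 4 : ℝ) ^ b ≤ (min 1 s) ^ b :=
      Real.rpow_le_rpow (by norm_num) (le_min (by norm_num) hs14) hb
    have h8 : (2 : ℝ) ^ (-a) * (1 / 4 : ℝ) ^ b ≤ W s :=
      (mul_le_mul_of_nonneg_left h7 h2a.le).trans h5
    constructor
    · refine le_trans ?_ hm
      rw [mul_assoc c2 c1]
      refine mul_le_mul_of_nonneg_right ?_ (by positivity)
      refine mul_le_mul_of_nonneg_left ?_ hc2.le
      exact mul_le_mul_of_nonneg_left h8 hc1.le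
    · refine hl.trans ?_
      refine mul_le_mul_of_nonneg_right ?_ (norm_nonneg _)
      refine mul_le_mul_of_nonneg_left ?_ (by linarith)
      rw [mul_assoc c2 c1]
      refine mul_le_mul_of_nonneg_left ?_ hc2.le
      exact mul_le_mul_of_nonneg_left h6 hc1.le
  · rw [Metric.tendstoUniformlyOn_iff]
    intro ε hε
    have h1 := Metric.tendstoUniformlyOn_iff.1 (hk3 1) ε hε
    have h2 := (tendsto_add_atTop_nat 4).eventually h1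
    filter_upwards [h2] with n hn x hx
    have h3 : ‖x‖ ≤ 2 := by
      have := mem_closedBall_zero_iff.1 hx
      linarith
    rw [← hAA x h3]
    exact hn x hx

end Pool.Agent.CG
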