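import Pool.Agent.CG.I.E1
import Pool.Agent.CG.I.E2
import Pool.Agent.CG.Euc
import Pool.Agent.CG.UU

/-!
# CG-I-E3 (helper66): approximation of a solution by solutions of regularised equations, `L²` convergence of the gradients

PLAN (stated for every Carnot group `G`).  `D = G.B x R`.  `reg_struct` gives `c0, C0` and `Ak`.  For each `k`: `exists_dirichlet` with `Γ = F`
(`MemLp F 2 (volume.restrict D)`: `F` is bounded a.e., `D` has finite volume; measurability from `hU.lqg`) gives `z_k, Z_k` in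
`HW0 G 2 D` with `∫ ⟨Ak (F + Z_k), grad φ⟩ = 0`.  `Appx` holds (`HW.add` on `D`, `HW0.hw`, `HW.mono`).
Convergence: `HW0.test` with `H = Ak (F + Z_k)` (in `L²(D)`: `UU` Lipschitz) and with `H = A ∘ F` (bounded on `D`: `A` continuous,
`AA.continuous`, `‖F‖ ≤ 1`; the equation of `U` holds for tests in `D`), `z = z_k`:
`∫_D ⟨Ak(F + Z) - Ak(F), Z⟩ = ∫_D ⟨A(F) - Ak(F), Z⟩ ≤ ε_k ∫_D ‖Z‖`, `ε_k = sup_{‖ξ‖ ≤ 1} ‖A - Ak‖` (finite for large `k`; take any
`ε_k → 0` with `‖Ak ξ - A ξ‖ ≤ ε_k` on the unit ball: from `TendstoUniformlyOn` it is enough to have, for every `δ > 0`, the bound `δ` for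
large `k`; define `ε_k = ⨆` or choose a subsequence with `ε_k = 1/(k+1)`).  Lower bound `c0 ∫_D (min 1 ‖Z‖)^b ‖Z‖² ≤` left side
(`reg_struct`, second property, `ξ = F + Z`, `ζ = F`).  `l2_small` with `μ = volume.restrict D`, `g = ‖Z_k‖`; `Z_k = 0` a.e. off `D`
(`HW0.zero`), so `∫ ‖Z_k‖² = ∫_D ‖Z_k‖² → 0`: take `k` large.
-/

set_option autoImplicit false

namespace Pool.Agent.CG

open MeasureTheory Set Filter Topology
open scoped ContDiff ENNReal

variable {N m : ℕ}

/-- Regularised problem on the ball `B x R`. -/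
structure Appx (G : Carnot N m) (c0 C0 : ℝ) (x : Pt N) (R : ℝ) (U : Pt N → ℝ) (F : Pt N → Hv m)
    (B : Hv m → Hv m) (z : Pt N → ℝ) (Z : Pt N → Hv m) : Prop where
  uu : ∃ lam Lam : ℝ, 0 < lam ∧ UU lam Lam B
  st : ∀ ξ ζ, 1 / 4 ≤ max ‖ξ‖ ‖ζ‖ → c0 * ‖ξ - ζ‖ ^ 2 ≤ inner ℝ (B ξ - B ζ) (ξ - ζ) ∧
    ‖B ξ - B ζ‖ ≤ C0 * ‖ξ - ζ‖
  hz : HW0 G 2 (G.B x R) z Z
  sol : Sol G 2 (G.B x R) B (fun y => U y + z y) (fun y => F y + Z y)

private theorem e3_integrable_inner {μ : Measure (Pt N)} {f g : Pt N → Hv m} (hf : MemLp f 2 μ)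
    (hg : MemLp g 2 μ) : Integrable (fun y => inner ℝ (f y) (g y)) μ := by
  have h1 : Integrable (fun y => ‖f y‖ * ‖g y‖) μ := by
    have h2 := MemLp.integrable_mul (p := 2) (q := 2) hf.norm hg.norm
    exact h2
  refine h1.mono' (hf.aestronglyMeasurable.inner hg.aestronglyMeasurable) ?_
  exact Eventually.of_forall fun y => norm_inner_le_norm _ _

private theorem e3_memLp_comp {μ : Measure (Pt N)} [IsFiniteMeasure μ] {B : Hv m → Hv m}
    {lam Lam : ℝ} (hB : UU lam Lam B) {f : Pt N → Hv m} (hf : MemLp f 2 μ) :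
    MemLp (fun y => B (f y)) 2 μ := by
  have hLip : LipschitzWith (Real.toNNReal Lam) B := by
    refine LipschitzWith.of_dist_le_mul fun ξ ζ => ?_
    rw [dist_eq_norm, dist_eq_norm]
    refine (hB.lip ξ ζ).trans (mul_le_mul_of_nonneg_right ?_ (norm_nonneg _))
    exact Real.le_coe_toNNReal Lam
  have h1 : MemLp (fun y => B (f y) - B 0) 2 μ := by
    refine MemLp.of_le_mul (c := Lam) hf ?_ ?_
    · exact (hLip.continuous.comp_aestronglyMeasurable hf.aestronglyMeasurable).sub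
        aestronglyMeasurable_const
    · refine Eventually.of_forall fun y => ?_
      have := hB.lip (f y) 0
      rwa [sub_zero] at this
  have h2 : MemLp (fun _ : Pt N => B 0) 2 μ := memLp_const _
  have h3 := h1.add h2
  refine h3.congr_norm ?_ ?_
  · exact hLip.continuous.comp_aestronglyMeasurable hf.aestronglyMeasurable
  · refine Eventually.of_forall fun y => ?_
    simp

theorem exists_appx (G : Carnot N m) {a b L : ℝ} (ha0 : 0 ≤ a) (ha : a < 1) (hb : 0 ≤ b) (hL : 1 ≤ L) :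
    ∃ c0 C0 : ℝ, 0 < c0 ∧ 0 < C0 ∧ ∀ A : Hv m → Hv m, Nrm a b L A → ∀ (U : Pt N → ℝ) (F : Pt N → Hv m),
      Sol G 2 univ A U F → (∀ᵐ x, ‖F x‖ ≤ 1) → ∀ (x : Pt N) (R : ℝ), 0 < R → ∀ ε : ℝ, 0 < ε →
      ∃ (B : Hv m → Hv m) (z : Pt N → ℝ) (Z : Pt N → Hv m), Appx G c0 C0 x R U F B z Z ∧
        ∫ y, ‖Z y‖ ^ 2 ≤ ε := by
  obtain ⟨c0, C0, hc0, hC0, hreg⟩ := reg_struct (m := m) ha0 ha hb hL
  refine ⟨c0, C0, hc0, hC0, ?_⟩
  intro A hA U F hU hF1 x R hR ε hε
  obtain ⟨Ak, hUU, hlow, hst, hunif⟩ := hreg A hA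
  obtain ⟨W, hW, hW1, hAA⟩ := hA
  have hAc : Continuous A := AA.continuous ha hb (by linarith) hW hAA
  have hDo : IsOpen (G.B x R) := G.isOpen_B x R
  have : IsFiniteMeasure ((volume : Measure (Pt N)).restrict (G.B x R)) :=
    ⟨by rw [Measure.restrict_apply_univ]; exact G.vol_B_lt_top x R⟩
  have hK : IsCompact {y | G.di x y ≤ R} := G.isCompact_cB x R
  have hDK : G.B x R ⊆ {y | G.di x y ≤ R} := by
    intro y hy
    have h1 : G.di x y < R := hy
    exact h1.le
  have hF2 : MemLp F 2 ((volume : Measure (Pt N)).restrict (G.B x R)) :=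
    (hU.lqg _ hK (subset_univ _)).mono_measure (Measure.restrict_mono hDK le_rfl)
  -- the Dirichlet problems
  have hdir : ∀ k, ∃ (z : Pt N → ℝ) (Z : Pt N → Hv m), HW0 G 2 (G.B x R) z Z ∧
      ∀ φ : Pt N → ℝ, Test (G.B x R) φ → ∫ y, inner ℝ (Ak k (F y + Z y)) (G.grad φ y) = 0 := by
    intro k
    obtain ⟨lam, Lam, hlam, hB⟩ := hUU k
    exact exists_dirichlet G hlam hB x R hR hF2
  choose z Z hz hZ using hdir
  -- a subsequence
  have hsub : ∀ j : ℕ, ∃ k, ∀ ξ ∈ Metric.closedBall (0 : Hv m) 1,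
      dist (A ξ) (Ak k ξ) < 1 / ((j : ℝ) + 1) := by
    intro j
    have h1 := (Metric.tendstoUniformlyOn_iff.1 hunif) (1 / ((j : ℝ) + 1)) (by positivity)
    exact h1.exists
  choose κ hκ using hsub
  have hZ2 : ∀ k, MemLp (Z k) 2 ((volume : Measure (Pt N)).restrict (G.B x R)) := fun k =>
    (hz k).memZ.restrict _
  have hAF : MemLp (fun y => A (F y)) 2 ((volume : Measure (Pt N)).restrict (G.B x R)) := by
    obtain ⟨C, hC⟩ := (isCompact_closedBall (0 : Hv m) 1).exists_bound_of_continuousOn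
      hAc.continuousOn
    refine MemLp.of_bound (hAc.comp_aestronglyMeasurable hF2.aestronglyMeasurable) C ?_
    filter_upwards [ae_restrict_of_ae hF1] with y hy
    exact hC _ (by simpa using hy)
  have key : ∀ j : ℕ, c0 * ∫ y in G.B x R, (min 1 ‖Z (κ j) y‖) ^ b * ‖Z (κ j) y‖ ^ 2 ≤
      1 / ((j : ℝ) + 1) * ∫ y in G.B x R, ‖Z (κ j) y‖ := by
    intro j
    set k := κ j with hk
    obtain ⟨lam, Lam, hlam, hB⟩ := hUU k
    have hFZ : MemLp (fun y => F y + Z k y) 2 ((volume : Measure (Pt N)).restrict (G.B x R)) :=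
      hF2.add (hZ2 k)
    have hH1 := e3_memLp_comp hB hFZ
    have t1 : ∫ y in G.B x R, inner ℝ (Ak k (F y + Z k y)) (Z k y) = 0 :=
      (hz k).test (p' := 2) (by norm_num) inferInstance hDo hH1 (hZ k)
    have t2 : ∫ y in G.B x R, inner ℝ (A (F y)) (Z k y) = 0 :=
      (hz k).test (p' := 2) (by norm_num) inferInstance hDo hAF
        (fun φ hφ => hU.eqn φ ⟨hφ.smooth, hφ.cpt, subset_univ _⟩)
    have i1 := e3_integrable_inner hH1 (hZ2 k)
    have i2 := e3_integrable_inner hAF (hZ2 k)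
    have i3 : Integrable (fun y => ‖Z k y‖) ((volume : Measure (Pt N)).restrict (G.B x R)) :=
      ((hZ2 k).integrable (by norm_num)).norm
    have i4 : Integrable (fun y => (min 1 ‖Z k y‖) ^ b * ‖Z k y‖ ^ 2)
        ((volume : Measure (Pt N)).restrict (G.B x R)) := by
      have h1 : Integrable (fun y => ‖Z k y‖ ^ 2)
          ((volume : Measure (Pt N)).restrict (G.B x R)) := (hZ2 k).norm.integrable_sq
      refine h1.mono' ?_ ?_
      · have h2 : AEMeasurable (fun y => ‖Z k y‖)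
            ((volume : Measure (Pt N)).restrict (G.B x R)) :=
          (hZ2 k).norm.aestronglyMeasurable.aemeasurable
        exact (((aemeasurable_const.min h2).pow_const b).mul (h2.pow_const 2)).aestronglyMeasurable
      · refine Eventually.of_forall fun y => ?_
        have h1 : 0 ≤ min 1 ‖Z k y‖ := le_min zero_le_one (norm_nonneg _)
        have h2 : (min 1 ‖Z k y‖) ^ b ≤ 1 := Real.rpow_le_one h1 (min_le_left _ _) hb
        rw [Real.norm_of_nonneg (mul_nonneg (Real.rpow_nonneg h1 _) (sq_nonneg _))]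
        exact mul_le_of_le_one_left (sq_nonneg _) h2
    have hpt : ∀ᵐ y ∂((volume : Measure (Pt N)).restrict (G.B x R)),
        c0 * ((min 1 ‖Z k y‖) ^ b * ‖Z k y‖ ^ 2) ≤
          (inner ℝ (Ak k (F y + Z k y)) (Z k y) - inner ℝ (A (F y)) (Z k y)) +
            1 / ((j : ℝ) + 1) * ‖Z k y‖ := by
      filter_upwards [ae_restrict_of_ae hF1] with y hy
      have h1 := hlow k (F y + Z k y) (F y)
      rw [add_sub_cancel_left] at h1
      have h2 : inner ℝ (A (F y) - Ak k (F y)) (Z k y) ≤ 1 / ((j : ℝ) + 1) * ‖Z k y‖ := by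
        refine (real_inner_le_norm _ _).trans (mul_le_mul_of_nonneg_right ?_ (norm_nonneg _))
        rw [← dist_eq_norm]
        exact (hκ j (F y) (by simpa using hy)).le
      rw [inner_sub_left] at h1 h2
      linarith
    have h5 := integral_mono_ae (i4.const_mul c0) ((i1.sub i2).add (i3.const_mul _)) hpt
    rw [integral_const_mul] at h5
    have h6 : ∫ y in G.B x R, ((inner ℝ (Ak k (F y + Z k y)) (Z k y) - inner ℝ (A (F y)) (Z k y)) +
            1 / ((j : ℝ) + 1) * ‖Z k y‖) = 1 / ((j : ℝ) + 1) * ∫ y in G.B x R, ‖Z k y‖ := by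
      have i12 : Integrable (fun y => inner ℝ (Ak k (F y + Z k y)) (Z k y) -
          inner ℝ (A (F y)) (Z k y)) ((volume : Measure (Pt N)).restrict (G.B x R)) := i1.sub i2
      rw [integral_add i12 (i3.const_mul _), integral_sub i1 i2, t1, t2,
        integral_const_mul, sub_zero, zero_add]
    refine h5.trans (le_of_eq ?_)
    exact h6
  have hlim := l2_small ((volume : Measure (Pt N)).restrict (G.B x R)) hb hc0
    (g := fun j y => ‖Z (κ j) y‖) (fun j => (hZ2 (κ j)).norm) (fun j y => norm_nonneg _)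
    tendsto_one_div_add_atTop_nhds_zero_nat (fun j => by positivity) key
  obtain ⟨j, hj⟩ := (hlim.eventually (ge_mem_nhds hε)).exists
  refine ⟨Ak (κ j), z (κ j), Z (κ j), ⟨hUU _, hst _, hz _, ⟨?_, ?_⟩⟩, ?_⟩
  · exact HW.add (by norm_num) (hU.toHW.mono (subset_univ _))
      (((hz (κ j)).hw (by norm_num)).mono (subset_univ _))
  · exact hZ (κ j)
  · refine le_trans (le_of_eq ?_) hj
    symm
    refine setIntegral_eq_integral_of_ae_compl_eq_zero ?_
    filter_upwards [(hz (κ j)).zero (by norm_num) hDo] with y hy hyD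
    rw [(hy hyD).2, norm_zero]
    norm_num

end Pool.Agent.CG
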