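import Pool.Agent.CG.I.E0
import Pool.Agent.CG.B.Lip

/-!
# CG-I-E4 (helper66): difference quotients of functions with continuous gradient

PLAN.  `w'` = continuous representative of `w` on `B x ρ` (`HW.lip`, first part, with `L = M`; `‖F‖ ≤ M` a.e. since `F = F'` a.e.).  Fix
`y0 ∈ B x (ρ/2)`, `a = F' y0`, `r = min τ (ρ/2)`: `B y0 r ⊆ B x ρ`.  `v = w - ∑ k, a k * y k` (`HW.linear`, `HW.sub`) has gradient `F - a` with
`‖F - a‖ ≤ δ` a.e. on `B y0 r` (`hu`, `di y0 y < r ≤ τ`); `HW.lip` on `B y0 r` gives a continuous representative `v'` with `|v' y - v' z| ≤ δ di y z`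
on `B y0 (r/3)`.  `v' = w' - ∑ a k y k` on `B y0 r` (both continuous there, equal a.e.: `le_of_ae_le` of B/McS twice, or
`Measure.eqOn_open_of_ae_eq`).  With `y1 = pv t ξ + y0`, `di y0 y1 ≤ m t < r/3` (`di_pv`): `|w' y1 - w' y0 - t ⟨a, ξ⟩| ≤ δ m t` (`lin_pv`).
Divide by `t`.  So the inequality holds for `w'` at every `y0 ∈ B x (ρ/2)`; `w = w'` a.e. and `w(pv + ·) = w'(pv + ·)` a.e. on
`B x (ρ/2)` (translation preserves null sets: `(euc m).mp_left`; the translated point is in `B x ρ` because `m t < ρ/2`).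
-/

set_option autoImplicit false

namespace Pool.Agent.CG

open MeasureTheory Set Filter Topology
open scoped ContDiff ENNReal

variable {m : ℕ}

theorem diff_quot {x : Pt m} {ρ δ τ : ℝ} (hρ : 0 < ρ) (hτ : 0 < τ) (hδ : 0 ≤ δ) {w : Pt m → ℝ}
    {F F' : Pt m → Hv m} (hw : HW (euc m) 2 ((euc m).B x ρ) w F)
    (hF : ∀ᵐ y, y ∈ (euc m).B x ρ → F y = F' y) {M : ℝ} (hM : ∀ y ∈ (euc m).B x ρ, ‖F' y‖ ≤ M)
    (hu : ∀ y ∈ (euc m).B x ρ, ∀ z ∈ (euc m).B x ρ, (euc m).di y z < τ → ‖F' y - F' z‖ ≤ δ)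
    {ξ : Hv m} (hξ : ‖ξ‖ = 1) {t : ℝ} (ht : 0 < t) (h1 : 4 * (m * t) < τ) (h2 : 4 * (m * t) < ρ / 2) :
    ∀ᵐ y, y ∈ (euc m).B x (ρ / 2) →
      |(w ((euc m).mul (pv t ξ) y) - w y) / t - inner ℝ (F' y) ξ| ≤ m * δ := by
  have hm1 : (1 : ℝ) ≤ m := m_pos_of_unit hξ
  have hmt : 0 < (m : ℝ) * t := mul_pos (by linarith) ht
  have hself : ∀ (y : Pt m) (r : ℝ), 0 < r → y ∈ (euc m).B y r := by
    intro y r hr
    change (euc m).di y y < r
    rw [(euc m).di_self]
    exact hr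
  have hM0 : 0 ≤ M := (norm_nonneg _).trans (hM x (hself x ρ hρ))
  have hFM : ∀ᵐ y, y ∈ (euc m).B x ρ → ‖F y‖ ≤ M := by
    filter_upwards [hF] with y hy hyB
    rw [hy hyB]
    exact hM y hyB
  obtain ⟨w', hw'c, hw'e, -⟩ := HW.lip hρ one_le_two hw hM0 hFM
  have key : ∀ y0 ∈ (euc m).B x (ρ / 2),
      |w' ((euc m).mul (pv t ξ) y0) - w' y0 - t * inner ℝ (F' y0) ξ| ≤ δ * (m * t) := by
    intro y0 hy0
    have hy0' : (euc m).di x y0 < ρ / 2 := hy0
    obtain ⟨r, hr⟩ : ∃ r : ℝ, r = min τ (ρ / 2) := ⟨_, rfl⟩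
    have hr0 : 0 < r := by
      rw [hr]
      exact lt_min hτ (by linarith)
    have hrτ : r ≤ τ := by rw [hr]; exact min_le_left _ _
    have hrρ : r ≤ ρ / 2 := by rw [hr]; exact min_le_right _ _
    have hrmt : (m : ℝ) * t < r / 3 := by
      have h3 : 4 * ((m : ℝ) * t) < r := by
        rw [hr]
        exact lt_min h1 h2
      linarith
    have hsub : (euc m).B y0 r ⊆ (euc m).B x ρ := by
      intro z hz
      have hz' : (euc m).di y0 z < r := hz
      have h3 := (euc m).di_triangle x y0 z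
      change (euc m).di x z < ρ
      linarith
    have hv : HW (euc m) 2 ((euc m).B y0 r)
        (fun y => w y - ∑ k, F' y0 k * y ((euc m).hor k)) (fun y => F y - F' y0) :=
      (hw.mono hsub).sub one_le_two (HW.linear (F' y0))
    have hvF : ∀ᵐ y, y ∈ (euc m).B y0 r → ‖F y - F' y0‖ ≤ δ := by
      filter_upwards [hF] with y hy hyB
      have h3 := hsub hyB
      rw [hy h3, norm_sub_rev]
      exact hu y0 (hsub (hself y0 r hr0)) y h3 (lt_of_lt_of_le hyB hrτ)
    obtain ⟨v', hv'c, hv'e, hv'l⟩ := HW.lip hr0 one_le_two hv hδ hvF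
    have hlin : Continuous (fun y : Pt m => ∑ k, F' y0 k * y ((euc m).hor k)) := by fun_prop
    have hae : ∀ᵐ z, z ∈ (euc m).B y0 r →
        v' z = w' z - ∑ k, F' y0 k * z ((euc m).hor k) := by
      filter_upwards [hv'e, hw'e] with z h3 h4 hz
      rw [← h3 hz, h4 (hsub hz)]
    have hc2 : ContinuousOn (fun z => w' z - ∑ k, F' y0 k * z ((euc m).hor k))
        ((euc m).B y0 r) := (hw'c.mono hsub).sub hlin.continuousOn
    have heq : ∀ y ∈ (euc m).B y0 r, v' y = w' y - ∑ k, F' y0 k * y ((euc m).hor k) := by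
      intro y hy
      refine le_antisymm ?_ ?_
      · exact le_of_ae_le ((euc m).isOpen_B _ _) hv'c hc2 (hae.mono fun z hz h => (hz h).le) y hy
      · exact le_of_ae_le ((euc m).isOpen_B _ _) hc2 hv'c (hae.mono fun z hz h => (hz h).ge) y hy
    have hd : (euc m).di y0 ((euc m).mul (pv t ξ) y0) ≤ m * t := by
      have h3 := di_pv t hξ y0
      rwa [abs_of_pos ht] at h3
    have hy1 : (euc m).mul (pv t ξ) y0 ∈ (euc m).B y0 (r / 3) := lt_of_le_of_lt hd hrmt
    have hy00 : y0 ∈ (euc m).B y0 (r / 3) := hself y0 _ (by linarith)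
    have hsub3 : (euc m).B y0 (r / 3) ⊆ (euc m).B y0 r := by
      intro z hz
      have hz' : (euc m).di y0 z < r / 3 := hz
      change (euc m).di y0 z < r
      linarith
    have h5 := hv'l _ hy1 _ hy00
    rw [heq _ (hsub3 hy1), heq _ (hsub3 hy00), (euc m).di_comm] at h5
    have h6 := lin_pv (F' y0) t ξ y0
    calc |w' ((euc m).mul (pv t ξ) y0) - w' y0 - t * inner ℝ (F' y0) ξ|
        = |w' ((euc m).mul (pv t ξ) y0) -
            (∑ k, F' y0 k * ((euc m).mul (pv t ξ) y0) ((euc m).hor k)) -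
            (w' y0 - ∑ k, F' y0 k * y0 ((euc m).hor k))| := by
          rw [← h6]
          congr 1
          ring
      _ ≤ δ * (euc m).di y0 ((euc m).mul (pv t ξ) y0) := h5
      _ ≤ δ * (m * t) := mul_le_mul_of_nonneg_left hd hδ
  have htr : ∀ᵐ y, (euc m).mul (pv t ξ) y ∈ (euc m).B x ρ →
      w ((euc m).mul (pv t ξ) y) = w' ((euc m).mul (pv t ξ) y) :=
    ((euc m).mp_left (pv t ξ)).quasiMeasurePreserving.ae hw'e
  filter_upwards [hw'e, htr] with y h3 h4 hy
  have hy' : (euc m).di x y < ρ / 2 := hy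
  have hyρ : y ∈ (euc m).B x ρ := by
    change (euc m).di x y < ρ
    linarith
  have hd : (euc m).di y ((euc m).mul (pv t ξ) y) ≤ m * t := by
    have h3 := di_pv t hξ y
    rwa [abs_of_pos ht] at h3
  have hy1ρ : (euc m).mul (pv t ξ) y ∈ (euc m).B x ρ := by
    have h5 := (euc m).di_triangle x y ((euc m).mul (pv t ξ) y)
    change (euc m).di x ((euc m).mul (pv t ξ) y) < ρ
    linarith
  rw [h3 hyρ, h4 hy1ρ]
  have h6 := key y hy
  have h7 : (w' ((euc m).mul (pv t ξ) y) - w' y) / t - inner ℝ (F' y) ξ =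
      (w' ((euc m).mul (pv t ξ) y) - w' y - t * inner ℝ (F' y) ξ) / t := by
    field_simp
  rw [h7, abs_div, abs_of_pos ht, div_le_iff₀ ht]
  linarith

end Pool.Agent.CG
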