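import Pool.Agent.CG.I.E3
import Pool.Agent.CG.I.E4

/-!
# CG-I-E5 (helper66): difference quotients of the regularised solution are in the De Giorgi class at levels `≥ 1/2`

PLAN.  `w = U + z`, `Fw = F + Z`, solution on `B x (4ρ)`; `∫_{B x (4ρ)} ‖Fw‖² < ∞` (`‖F‖ ≤ 1` a.e., `Z ∈ L²`).  `uu_reg` on `B x (4ρ)`:
`F' = Fw` a.e. on `B x (2ρ)`, bounded and `‖F' y - F' z‖² ≤ K (di y z/(4ρ))^{2β}` there, so there is `τ > 0` with `‖F' y - F' z‖ ≤ δ` for `di y z < τ`,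
`δ = 1/(4 (m + 1))`.  `t0 > 0`: `4 m t0 < τ`, `4 m t0 < ρ`, `m t0 < ρ`.  For `0 < t < t0`: `v y = (w(pv t ξ + y) - w y)/t` with gradient
`V y = t⁻¹ • (Fw(pv t ξ + y) - Fw y)` on `B x ρ` (`HW.left`, `HW.mono`: `pv t ξ + y ∈ B x (4ρ)`, `HW.sub`, `HW.smul`).  `dg_of_quasi` with
`H y = t⁻¹ • (B(Fw(pv t ξ + y)) - B(Fw y))`, `c = c0`, `L = C0`, `k0 = 1/2`: `H ∈ L²_loc` (`UU` Lipschitz; compare `UU.lqLoc` in D/Diff), the
equation: `Sol.left` for `Fw(pv t ξ + ·)` and `sol.eqn`, difference of the two (tests in `B x ρ`; integrability as in D/Diff).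
If `v y > 1/2` then by `diff_quot` (on `B x (2ρ)`, a.e. `y ∈ B x ρ`) `⟨F' y, ξ⟩ ≥ v y - m δ > 1/4`, so `‖Fw y‖ ≥ 1/4` (`Fw y = F' y` a.e.) and
`Appx.st` applies with `ξ := Fw(pv t ξ + y)`, `ζ := Fw y`.
-/

set_option autoImplicit false

namespace Pool.Agent.CG

open MeasureTheory Set Filter Topology
open scoped ContDiff ENNReal

variable {m : ℕ}

private theorem e5_int_inner {G : Carnot m m} {Ω : Set (Pt m)} {H : Pt m → Hv m} (hH : LqLoc 2 Ω H)
    {φ : Pt m → ℝ} (hφ : Test Ω φ) : Integrable (fun x => inner ℝ (H x) (G.grad φ x)) := by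
  have hK : IsCompact (tsupport φ) := hφ.cpt.isCompact
  have : Fact (IsCompact (tsupport φ)) := ⟨hK⟩
  have h1 := hH _ hK hφ.sub
  have h2 : Integrable H (volume.restrict (tsupport φ)) :=
    memLp_one_iff_integrable.1 (h1.mono_exponent (by norm_num))
  have hgc : Continuous (G.grad φ) := (G.smooth_grad hφ.smooth).continuous
  obtain ⟨C, hC⟩ := hK.exists_bound_of_continuousOn (f := G.grad φ) hgc.continuousOn
  have hz : ∀ x, x ∉ tsupport φ → G.grad φ x = 0 := by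
    intro x hx
    ext k
    show G.X k φ x = 0
    rw [G.X_eq ((hφ.smooth.differentiable (by simp)).differentiableAt) k,
      image_eq_zero_of_notMem_tsupport (fun hc => hx (tsupport_fderiv_subset ℝ hc))]
    rfl
  rw [← integrableOn_iff_integrable_of_support_subset (s := tsupport φ)]
  · refine Integrable.mono' (h2.norm.mul_const C)
      (h2.aestronglyMeasurable.inner hgc.aestronglyMeasurable) ?_
    filter_upwards [ae_restrict_mem hK.measurableSet] with x hx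
    exact (norm_inner_le_norm _ _).trans (mul_le_mul_of_nonneg_left (hC x hx) (norm_nonneg _))
  · intro x hx
    by_contra hc
    apply hx
    show inner ℝ (H x) (G.grad φ x) = 0
    rw [hz x hc, inner_zero_right]

private theorem e5_sub (x : Pt m) {r s : ℝ} (h : r ≤ s) : (euc m).B x r ⊆ (euc m).B x s := by
  intro y hy
  have hy' : (euc m).di x y < r := hy
  change (euc m).di x y < s
  exact lt_of_lt_of_le hy' h

/-- modulus of continuity -/
private theorem e5_mod {C R β K δ : ℝ} (hβ : 0 < β) (hδ : 0 < δ) :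
    ∃ τ : ℝ, 0 < τ ∧ ∀ s : ℝ, 0 ≤ s → s < τ → C * (s / R) ^ (2 * β) * K ≤ δ ^ 2 := by
  have hc : ContinuousAt (fun s : ℝ => C * (s / R) ^ (2 * β) * K) 0 := by
    have h1 : ContinuousAt (fun s : ℝ => (s / R) ^ (2 * β)) 0 := by
      refine ContinuousAt.rpow_const (continuousAt_id.div_const R) (Or.inr (by positivity))
    exact (h1.const_mul C).mul_const K
  rw [Metric.continuousAt_iff] at hc
  obtain ⟨τ, hτ, h⟩ := hc (δ ^ 2) (by positivity)
  refine ⟨τ, hτ, fun s hs hsτ => ?_⟩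
  have h1 := @h s (by rw [Real.dist_eq, sub_zero, abs_of_nonneg hs]; exact hsτ)
  rw [Real.dist_eq, zero_div, Real.zero_rpow (by positivity), mul_zero, zero_mul, sub_zero] at h1
  exact (le_abs_self _).trans h1.le

theorem dg_quot {c0 C0 : ℝ} (hc0 : 0 < c0) (hC0 : 0 < C0) {x : Pt m} {ρ : ℝ} (hρ : 0 < ρ) {U : Pt m → ℝ}
    {F : Pt m → Hv m} {B : Hv m → Hv m} {z : Pt m → ℝ} {Z : Pt m → Hv m}
    (h : Appx (euc m) c0 C0 x (4 * ρ) U F B z Z) (hU : HW (euc m) 2 univ U F) (hF : ∀ᵐ y, ‖F y‖ ≤ 1)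
    {ξ : Hv m} (hξ : ‖ξ‖ = 1) :
    ∃ t0 : ℝ, 0 < t0 ∧ ∀ t : ℝ, 0 < t → t < t0 →
      DG (euc m) ((euc m).B x ρ)
        (fun y => ((U ((euc m).mul (pv t ξ) y) + z ((euc m).mul (pv t ξ) y)) - (U y + z y)) / t)
        (fun y => t⁻¹ • ((F ((euc m).mul (pv t ξ) y) + Z ((euc m).mul (pv t ξ) y)) - (F y + Z y)))
        (1 / 2) (4 * C0 ^ 2 / c0 ^ 2) := by
  have h12 : (1 : ℝ≥0∞) ≤ 2 := by norm_num
  have hm1 : (1 : ℝ) ≤ m := m_pos_of_unit hξ
  have hm0 : (0 : ℝ) < m := by linarith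
  obtain ⟨lam, Lam, hlam, hB⟩ := h.uu
  set w : Pt m → ℝ := fun y => U y + z y with hw
  set Fw : Pt m → Hv m := fun y => F y + Z y with hFw
  have hsol : Sol (euc m) 2 ((euc m).B x (4 * ρ)) B w Fw := h.sol
  have hvol : volume ((euc m).B x (4 * ρ)) < ⊤ := (euc m).vol_B_lt_top x (4 * ρ)
  -- square integrability
  have hFmeas : AEStronglyMeasurable F (volume.restrict ((euc m).B x (4 * ρ))) := by
    obtain ⟨K, hK, hKB⟩ : ∃ K : Set (Pt m), IsCompact K ∧ (euc m).B x (4 * ρ) ⊆ K :=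
      ⟨_, (euc m).isCompact_cB x (4 * ρ), fun y hy => by
        change (euc m).di x y ≤ 4 * ρ
        exact le_of_lt hy⟩
    exact ((hU.lqg K hK (subset_univ K)).aestronglyMeasurable).mono_measure
      (Measure.restrict_mono hKB le_rfl)
  have hZ2 : MemLp Z 2 volume := h.hz.memZ
  have hint : IntegrableOn (fun y => ‖Fw y‖ ^ 2) ((euc m).B x (4 * ρ)) := by
    have : IsFiniteMeasure (volume.restrict ((euc m).B x (4 * ρ))) :=
      ⟨by rw [Measure.restrict_apply_univ]; exact hvol⟩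
    have e1 : MemLp F 2 (volume.restrict ((euc m).B x (4 * ρ))) :=
      MemLp.of_bound hFmeas 1 (ae_restrict_of_ae hF)
    have e2 : MemLp Z 2 (volume.restrict ((euc m).B x (4 * ρ))) := hZ2.restrict _
    have e3 : MemLp Fw 2 (volume.restrict ((euc m).B x (4 * ρ))) := e1.add e2
    exact (memLp_two_iff_integrable_sq_norm e3.aestronglyMeasurable).1 e3
  obtain ⟨β, hβ, -, C, hC, hreg⟩ := uu_reg (euc m) (Lam := Lam) hlam
  obtain ⟨F', hFF', hbd, hcont⟩ := hreg x (4 * ρ) (by positivity) B hB w Fw hsol hint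
  have e42 : 4 * ρ / 2 = 2 * ρ := by ring
  rw [e42] at hFF' hbd hcont
  set K1 : ℝ := (4 * ρ)⁻¹ ^ (euc m).Q * ∫ z in (euc m).B x (4 * ρ), ‖Fw z‖ ^ 2 with hK1
  set δ : ℝ := 1 / (4 * (m + 1)) with hδ
  have hδ0 : 0 < δ := by positivity
  have hmδ : m * δ ≤ 1 / 4 := by
    rw [hδ, mul_one_div, div_le_div_iff₀ (by positivity) (by norm_num)]
    linarith
  obtain ⟨τ, hτ, hmod⟩ := e5_mod (C := C) (R := 4 * ρ) (K := K1) hβ hδ0
  have hu : ∀ y ∈ (euc m).B x (2 * ρ), ∀ z ∈ (euc m).B x (2 * ρ), (euc m).di y z < τ →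
      ‖F' y - F' z‖ ≤ δ := by
    intro y hy z hz hyz
    have e1 := (hcont y hy z hz).trans (hmod _ ((euc m).di_nonneg y z) hyz)
    exact (pow_le_pow_iff_left₀ (norm_nonneg _) hδ0.le two_ne_zero).1 e1
  have hM : ∀ y ∈ (euc m).B x (2 * ρ), ‖F' y‖ ≤ C * K1 + 1 := by
    intro y hy
    have e1 := hbd y hy
    have e2 : 0 ≤ (‖F' y‖ - 1) ^ 2 := sq_nonneg _
    nlinarith [norm_nonneg (F' y)]
  have hwB : HW (euc m) 2 ((euc m).B x (2 * ρ)) w Fw :=
    hsol.toHW.mono (e5_sub x (by linarith))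
  refine ⟨min τ ρ / (4 * m + 1), by positivity, fun t ht htt => ?_⟩
  have ht1 : 4 * (m * t) < min τ ρ := by
    rw [lt_div_iff₀ (by positivity)] at htt
    nlinarith
  have htτ : 4 * (m * t) < τ := lt_of_lt_of_le ht1 (min_le_left _ _)
  have htρ : 4 * (m * t) < ρ := lt_of_lt_of_le ht1 (min_le_right _ _)
  have hmt : 0 < m * t := by positivity
  have hquot := diff_quot (x := x) (ρ := 2 * ρ) (δ := δ) (τ := τ) (by positivity) hτ hδ0.le hwB hFF'
    hM hu hξ ht htτ (by linarith)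
  have e22 : 2 * ρ / 2 = ρ := by ring
  rw [e22] at hquot
  -- the translated solution
  have hsub : (euc m).B x ρ ⊆ (euc m).B x (4 * ρ) := e5_sub x (by linarith)
  have hsub2 : (euc m).B x ρ ⊆ (euc m).B x (2 * ρ) := e5_sub x (by linarith)
  have htr : ∀ y ∈ (euc m).B x ρ, (euc m).mul (pv t ξ) y ∈ (euc m).B x (4 * ρ) := by
    intro y hy
    have e1 := (euc m).di_triangle x y ((euc m).mul (pv t ξ) y)
    have e2 := di_pv t hξ y
    rw [abs_of_pos ht] at e2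
    have e3 : (euc m).di x y < ρ := hy
    change (euc m).di x ((euc m).mul (pv t ξ) y) < 4 * ρ
    linarith
  have s1 : Sol (euc m) 2 ((euc m).B x ρ) B w Fw :=
    ⟨hsol.toHW.mono hsub, fun φ hφ => hsol.eqn φ (hφ.mono hsub)⟩
  have s2 : Sol (euc m) 2 ((euc m).B x ρ) B (fun y => w ((euc m).mul (pv t ξ) y))
      (fun y => Fw ((euc m).mul (pv t ξ) y)) := by
    have e1 := hsol.left (pv t ξ)
    exact ⟨e1.toHW.mono htr, fun φ hφ => e1.eqn φ (hφ.mono htr)⟩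
  have hv : HW (euc m) 2 ((euc m).B x ρ) (fun y => t⁻¹ * (w ((euc m).mul (pv t ξ) y) - w y))
      (fun y => t⁻¹ • (Fw ((euc m).mul (pv t ξ) y) - Fw y)) :=
    HW.smul t⁻¹ (HW.sub h12 s2.toHW s1.toHW)
  have b1 := hB.lqLoc s1.lqg
  have b2 := hB.lqLoc s2.lqg
  have hH : LqLoc 2 ((euc m).B x ρ) (fun y => t⁻¹ • (B (Fw ((euc m).mul (pv t ξ) y)) - B (Fw y))) :=
    (b2.sub b1).const_smul t⁻¹
  have hti : 0 < t⁻¹ := inv_pos.2 ht
  -- the large values
  have hlarge : ∀ᵐ y, y ∈ (euc m).B x ρ → 1 / 2 < t⁻¹ * (w ((euc m).mul (pv t ξ) y) - w y) →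
      1 / 4 ≤ max ‖Fw ((euc m).mul (pv t ξ) y)‖ ‖Fw y‖ := by
    filter_upwards [hquot, hFF'] with y h1 h2 hy hvy
    have e1 := (abs_le.1 (h1 hy)).2
    have e2 : (w ((euc m).mul (pv t ξ) y) - w y) / t =
        t⁻¹ * (w ((euc m).mul (pv t ξ) y) - w y) := by rw [div_eq_inv_mul]
    rw [e2] at e1
    have e3 : 1 / 4 ≤ inner ℝ (F' y) ξ := by linarith
    have e4 : inner ℝ (F' y) ξ ≤ ‖F' y‖ * ‖ξ‖ := real_inner_le_norm _ _
    rw [hξ, mul_one] at e4
    rw [h2 (hsub2 hy)]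
    exact (e3.trans e4).trans (le_max_right _ _)
  have hdg := dg_of_quasi ((euc m).isOpen_B x ρ) (k0 := 1 / 2) hc0 hC0.le hv hH ?_ ?_ ?_
  · have e1 : (fun y => ((U ((euc m).mul (pv t ξ) y) + z ((euc m).mul (pv t ξ) y)) - (U y + z y)) / t)
        = fun y => t⁻¹ * (w ((euc m).mul (pv t ξ) y) - w y) := by
      funext y
      rw [div_eq_inv_mul]
    rw [e1]
    exact hdg
  · filter_upwards [hlarge] with y h1 hy hvy
    have e1 := (h.st _ _ (h1 hy hvy)).2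
    rw [norm_smul, norm_smul, Real.norm_of_nonneg hti.le]
    calc t⁻¹ * ‖B (Fw ((euc m).mul (pv t ξ) y)) - B (Fw y)‖
        ≤ t⁻¹ * (C0 * ‖Fw ((euc m).mul (pv t ξ) y) - Fw y‖) := mul_le_mul_of_nonneg_left e1 hti.le
      _ = C0 * (t⁻¹ * ‖Fw ((euc m).mul (pv t ξ) y) - Fw y‖) := by ring
  · filter_upwards [hlarge] with y h1 hy hvy
    have e1 := (h.st _ _ (h1 hy hvy)).1
    rw [norm_smul, Real.norm_of_nonneg hti.le, inner_smul_left, inner_smul_right, conj_trivial]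
    calc c0 * (t⁻¹ * ‖Fw ((euc m).mul (pv t ξ) y) - Fw y‖) ^ 2
        = t⁻¹ * (t⁻¹ * (c0 * ‖Fw ((euc m).mul (pv t ξ) y) - Fw y‖ ^ 2)) := by ring
      _ ≤ t⁻¹ * (t⁻¹ * inner ℝ (B (Fw ((euc m).mul (pv t ξ) y)) - B (Fw y))
          (Fw ((euc m).mul (pv t ξ) y) - Fw y)) :=
        mul_le_mul_of_nonneg_left (mul_le_mul_of_nonneg_left e1 hti.le) hti.le
  · intro φ hφ
    have e1 : ∀ y, inner ℝ (t⁻¹ • (B (Fw ((euc m).mul (pv t ξ) y)) - B (Fw y))) ((euc m).grad φ y) =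
        t⁻¹ * (inner ℝ (B (Fw ((euc m).mul (pv t ξ) y))) ((euc m).grad φ y) -
          inner ℝ (B (Fw y)) ((euc m).grad φ y)) := by
      intro y
      rw [inner_smul_left, conj_trivial, inner_sub_left]
    simp_rw [e1]
    rw [integral_const_mul, integral_sub (e5_int_inner b2 hφ) (e5_int_inner b1 hφ), s2.eqn φ hφ,
      s1.eqn φ hφ, sub_zero, mul_zero]

end Pool.Agent.CG
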