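import Pool.Agent.CG.I.E0
import Pool.Agent.CG.B.Trans
import Pool.Agent.CG.B.Mul
import Pool.Agent.CG.B.Trf

/-!
# CG-I-E6: `L²` convergence of difference quotients
-/

set_option autoImplicit false

namespace Pool.Agent.CG

open MeasureTheory Set Filter Topology
open scoped ContDiff ENNReal

variable {m : ℕ}

private theorem e6_sq {α E : Type*} [MeasurableSpace α] [NormedAddCommGroup E] {μ : Measure α}
    {f : α → E} (hf : MemLp f 2 μ) : ∫ x, ‖f x‖ ^ 2 ∂μ = (eLpNorm f 2 μ).toReal ^ 2 := by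
  have h0 : 0 ≤ ∫ x, ‖f x‖ ^ (2 : ℝ) ∂μ := integral_nonneg fun x => by positivity
  have h1 := hf.eLpNorm_eq_integral_rpow_norm (by norm_num) (by norm_num)
  rw [show ((2 : ℝ≥0∞)).toReal = 2 by norm_num] at h1
  rw [h1, ENNReal.toReal_ofReal (Real.rpow_nonneg h0 _), ← Real.rpow_natCast, ← Real.rpow_mul h0]
  norm_num

private theorem e6_ell {ξ : Hv m} (hξ : ‖ξ‖ = 1) {t : ℝ} (ht : 0 < t) :
    (euc m).ell (pv t ξ) < ((m : ℝ) + 1) * t := by
  have h1 := ell_pv t hξ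
  rw [abs_of_pos ht] at h1
  nlinarith

private theorem e6_comm (g y : Pt m) : (euc m).mul y g = (euc m).mul g y := by
  rw [euc_mul, euc_mul, add_comm]

theorem quot_bd {z : Pt m → ℝ} {Z : Pt m → Hv m} (hz : HW (euc m) 2 univ z Z) (h1 : MemLp z 2 volume)
    (h2 : MemLp Z 2 volume) {ξ : Hv m} (hξ : ‖ξ‖ = 1) {t : ℝ} (ht : 0 < t) :
    ∫ y, ((z ((euc m).mul (pv t ξ) y) - z y) / t) ^ 2 ≤ ((m : ℝ) + 1) ^ 2 * ∫ y, ‖Z y‖ ^ 2 := by
  have h3 := hz.trans_univ one_le_two (by norm_num) (pv t ξ) (e6_ell hξ ht)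
  have h4 : MemLp (fun y => z ((euc m).mul (pv t ξ) y) - z y) 2 volume :=
    (h1.comp_measurePreserving ((euc m).mp_left (pv t ξ))).sub h1
  have h5 := e6_sq h4
  have h6 := e6_sq h2
  have hcm : ∀ y, (euc m).mul y (pv t ξ) = (euc m).mul (pv t ξ) y := fun y => e6_comm _ _
  simp only [hcm] at h3
  have h7 := ENNReal.toReal_mono (ENNReal.mul_ne_top ENNReal.ofReal_ne_top h2.eLpNorm_ne_top) h3
  rw [ENNReal.toReal_mul, ENNReal.toReal_ofReal (by positivity)] at h7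
  have h8 : ∫ y, ((z ((euc m).mul (pv t ξ) y) - z y) / t) ^ 2 =
      (∫ y, ‖z ((euc m).mul (pv t ξ) y) - z y‖ ^ 2) / t ^ 2 := by
    rw [← integral_div]
    refine integral_congr_ae (Eventually.of_forall fun y => ?_)
    simp only [div_pow, Real.norm_eq_abs, sq_abs]
  rw [h8, h5, h6, div_le_iff₀ (by positivity)]
  calc _ ≤ (((m : ℝ) + 1) * t * (eLpNorm Z 2 volume).toReal) ^ 2 := by gcongr
    _ = _ := by ring

private theorem e6_quot {u : Pt m → ℝ} {F : Pt m → Hv m} (hu : HW (euc m) 2 univ u F) {ξ : Hv m}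
    (hξ : ‖ξ‖ = 1) {t : ℝ} (ht : 0 < t) (x : Pt m) (ρ : ℝ) :
    eLpNorm (fun y => (u ((euc m).mul (pv t ξ) y) - u y) / t) 2 (volume.restrict ((euc m).B x ρ)) ≤
      ENNReal.ofReal ((m : ℝ) + 1) * eLpNorm F 2 (volume.restrict ((euc m).B x (ρ + (m + 1) * t))) := by
  have h3 := hu.trans one_le_two (by norm_num) x (pv t ξ) (R := ρ) (e6_ell hξ ht)
  have hcm : ∀ y, (euc m).mul y (pv t ξ) = (euc m).mul (pv t ξ) y := fun y => e6_comm _ _
  simp only [hcm] at h3
  have h4 : (fun y => (u ((euc m).mul (pv t ξ) y) - u y) / t) =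
      t⁻¹ • fun y => u ((euc m).mul (pv t ξ) y) - u y := by
    funext y
    rw [Pi.smul_apply, smul_eq_mul, div_eq_inv_mul]
  rw [h4, eLpNorm_const_smul, Real.enorm_of_nonneg (by positivity)]
  calc _ ≤ ENNReal.ofReal t⁻¹ * (ENNReal.ofReal (((m : ℝ) + 1) * t) *
        eLpNorm F 2 (volume.restrict ((euc m).B x (ρ + (m + 1) * t)))) := by gcongr
    _ = _ := by
      rw [← mul_assoc, ← ENNReal.ofReal_mul (by positivity)]
      congr 2
      field_simp

theorem quot_bd_loc {u : Pt m → ℝ} {F : Pt m → Hv m} (hu : HW (euc m) 2 univ u F) {ξ : Hv m}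
    (hξ : ‖ξ‖ = 1) {t : ℝ} (ht : 0 < t) (ht1 : t ≤ 1) (x : Pt m) (ρ : ℝ) :
    eLpNorm (fun y => (u ((euc m).mul (pv t ξ) y) - u y) / t) 2 (volume.restrict ((euc m).B x ρ)) ≤
      ENNReal.ofReal ((m : ℝ) + 1) * eLpNorm F 2 (volume.restrict ((euc m).B x (ρ + (m + 1)))) := by
  refine (e6_quot hu hξ ht x ρ).trans ?_
  gcongr
  intro y hy
  rw [(euc m).mem_B] at hy ⊢
  have h1 : ((m : ℝ) + 1) * t ≤ m + 1 := by
    have h2 : (0 : ℝ) ≤ m := Nat.cast_nonneg m
    nlinarith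
  linarith

private theorem e6_grad {φ : Pt m → ℝ} (hφ : Differentiable ℝ φ) (y : Pt m) (ξ : Hv m) :
    (inner ℝ ((euc m).grad φ y) ξ : ℝ) = fderiv ℝ φ y (pv 1 ξ) := by
  have h1 : ∀ k, (euc m).X k φ y = fderiv ℝ φ y ((euc m).e k) := by
    intro k
    exact (hφ y).lineDeriv_eq_fderiv
  have h2 : pv 1 ξ = ∑ k, ξ k • (euc m).e k := by
    funext i
    rw [Finset.sum_apply]
    simp only [pv, one_mul, Pi.smul_apply, smul_eq_mul, (euc m).e_apply, mul_ite, mul_one, mul_zero]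
    rw [Finset.sum_eq_single i]
    · exact (if_pos rfl).symm
    · intro j _ hj
      refine if_neg ?_
      exact fun h => hj (show j = i from h.symm)
    · intro h
      exact absurd (Finset.mem_univ i) h
  rw [h2, map_sum, PiLp.inner_apply]
  refine Finset.sum_congr rfl fun k _ => ?_
  rw [map_smul, (euc m).grad_apply, h1]
  simp

private theorem e6_unif {φ : Pt m → ℝ} (hφ : Test univ φ) (ξ : Hv m) {η : ℝ} (hη : 0 < η) :
    ∀ᶠ t : ℝ in 𝓝[>] 0, ∀ y, |(φ ((euc m).mul (pv t ξ) y) - φ y) / t -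
      inner ℝ ((euc m).grad φ y) ξ| ≤ η := by
  set v : Pt m := pv 1 ξ with hv
  have hd := hφ.diff
  have hc : Continuous (fun y => fderiv ℝ φ y v) :=
    (hφ.c1.continuous_fderiv (by simp)).clm_apply continuous_const
  have hcs : HasCompactSupport (fun y => fderiv ℝ φ y v) := by
    refine (hφ.cpt.fderiv (𝕜 := ℝ)).comp_left (g := fun L : Pt m →L[ℝ] ℝ => L v) ?_
    simp
  have huc := hcs.uniformContinuous_of_continuous hc
  rw [Metric.uniformContinuous_iff] at huc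
  obtain ⟨δ, hδ, huc⟩ := huc η hη
  have h0 : ∀ᶠ t : ℝ in 𝓝[>] 0, t * (‖v‖ + 1) < δ := by
    have h1 : Tendsto (fun t : ℝ => t * (‖v‖ + 1)) (𝓝[>] 0) (𝓝 0) := by
      have h2 : Tendsto (fun t : ℝ => t * (‖v‖ + 1)) (𝓝 0) (𝓝 (0 * (‖v‖ + 1))) :=
        (continuous_id.mul continuous_const).tendsto 0
      rw [zero_mul] at h2
      exact h2.mono_left nhdsWithin_le_nhds
    exact h1.eventually (gt_mem_nhds hδ)
  filter_upwards [h0, self_mem_nhdsWithin] with t ht ht0 y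
  have ht0' : 0 < t := ht0
  have hder : ∀ s : ℝ, HasDerivAt (fun s : ℝ => φ (y + s • v)) (fderiv ℝ φ (y + s • v) v) s := by
    intro s
    have h1 : HasDerivAt (fun s : ℝ => y + s • v) v s := by
      have h2 := ((hasDerivAt_id s).smul_const v).const_add y
      simpa using h2
    exact ((hd (y + s • v)).hasFDerivAt).comp_hasDerivAt s h1
  obtain ⟨s, hs, hs2⟩ := exists_hasDerivAt_eq_slope (fun s : ℝ => φ (y + s • v))
    (fun s => fderiv ℝ φ (y + s • v) v) ht0'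
    (fun s _ => (hder s).continuousAt.continuousWithinAt) (fun s _ => hder s)
  have h3 : (euc m).mul (pv t ξ) y = y + t • v := by
    rw [euc_mul, add_comm]
    congr 1
    funext i
    simp [pv, hv]
  rw [e6_grad hd, h3]
  have h4 : (φ (y + t • v) - φ y) / t = fderiv ℝ φ (y + s • v) v := by
    rw [hs2]
    simp
  rw [h4, ← Real.dist_eq]
  refine (huc ?_).le
  rw [dist_eq_norm, add_sub_cancel_left, norm_smul, Real.norm_of_nonneg hs.1.le]
  calc s * ‖v‖ ≤ t * (‖v‖ + 1) := by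
        have := norm_nonneg v
        nlinarith [hs.1, hs.2]
    _ < δ := ht

private theorem e6_lq {U : Pt m → ℝ} {F : Pt m → Hv m} (hU : HW (euc m) 2 univ U F) (ξ : Hv m) (t : ℝ) :
    LqLoc 2 univ (fun y => (U ((euc m).mul (pv t ξ) y) - U y) / t) := by
  have h1 := (hU.left (pv t ξ)).lq
  have h2 : {x | (euc m).mul (pv t ξ) x ∈ (univ : Set (Pt m))} = univ := by simp
  rw [h2] at h1
  have h3 := (h1.sub hU.lq).const_smul t⁻¹
  intro K hK hK'
  refine (h3 K hK hK').ae_eq (Eventually.of_forall fun y => ?_)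
  simp only [smul_eq_mul]
  rw [div_eq_inv_mul]

private theorem e6_in {F : Pt m → Hv m} (hF : LqLoc 2 univ F) (ξ : Hv m) :
    LqLoc 2 univ (fun y => (inner ℝ (F y) ξ : ℝ)) := by
  intro K hK hK'
  exact MemLp.inner_const (𝕜 := ℝ) (hF K hK hK') ξ

theorem quot_l2 {U : Pt m → ℝ} {F : Pt m → Hv m} (hU : HW (euc m) 2 univ U F) {ξ : Hv m} (hξ : ‖ξ‖ = 1)
    (x : Pt m) (ρ : ℝ) :
    Tendsto (fun t : ℝ => ∫ y in (euc m).B x ρ,
      ((U ((euc m).mul (pv t ξ) y) - U y) / t - inner ℝ (F y) ξ) ^ 2) (𝓝[>] 0) (𝓝 0) := by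
  set S := (euc m).B x ρ with hS
  set K := {y | (euc m).di x y ≤ ρ + (m + 1)} with hKd
  have hK : IsCompact K := (euc m).isCompact_cB x _
  have hm0 : (0 : ℝ) ≤ m := Nat.cast_nonneg m
  have hSK : S ⊆ K := by
    intro y hy
    rw [hS, (euc m).mem_B] at hy
    show (euc m).di x y ≤ ρ + (m + 1)
    linarith
  have hTK : (euc m).B x (ρ + (m + 1)) ⊆ K := fun y hy => le_of_lt ((euc m).mem_B.1 hy)
  have hmeas : (volume.restrict S : Measure (Pt m)) ≤ volume.restrict K := Measure.restrict_mono hSK le_rfl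
  have hLS : ∀ {f : Pt m → ℝ}, LqLoc 2 univ f → MemLp f 2 (volume.restrict S) := fun hf =>
    (hf K hK (subset_univ _)).mono_measure hmeas
  obtain ⟨φ, h1, -, h3, -, -⟩ := hU.approx_loc isOpen_univ one_le_two (by norm_num) hK (subset_univ _)
  set D : ℕ → ℝ≥0∞ := fun n => eLpNorm (fun x => (euc m).grad (φ n) x - F x) 2 (volume.restrict K) with hD
  have hV : volume S ≠ ⊤ := ((euc m).vol_B_lt_top x ρ).ne
  set V : ℝ≥0∞ := (volume S) ^ ((2 : ℝ≥0∞).toReal)⁻¹ with hVd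
  have hVt : V ≠ ⊤ := ENNReal.rpow_ne_top_of_nonneg (by norm_num) hV
  have key : Tendsto (fun t : ℝ => eLpNorm (fun y => (U ((euc m).mul (pv t ξ) y) - U y) / t -
      inner ℝ (F y) ξ) 2 (volume.restrict S)) (𝓝[>] 0) (𝓝 0) := by
    rw [ENNReal.tendsto_nhds_zero]
    intro ε hε
    have hε2 : 0 < ε / 2 := ENNReal.half_pos hε.ne'
    have hl1 : Tendsto (fun n => (ENNReal.ofReal ((m : ℝ) + 1) + 1) * D n) atTop (𝓝 0) := by
      have h4 := ENNReal.Tendsto.const_mul (a := ENNReal.ofReal ((m : ℝ) + 1) + 1) h3 (Or.inr (by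
        exact ENNReal.add_ne_top.2 ⟨ENNReal.ofReal_ne_top, ENNReal.one_ne_top⟩))
      rwa [mul_zero] at h4
    obtain ⟨n, hn⟩ := ((ENNReal.tendsto_nhds_zero.1 hl1) (ε / 2) hε2).exists
    have hl2 : Tendsto (fun η : ℝ => V * ENNReal.ofReal η) (𝓝[>] 0) (𝓝 0) := by
      have h4 : Tendsto (fun η : ℝ => ENNReal.ofReal η) (𝓝[>] 0) (𝓝 0) := by
        have h5 := (ENNReal.continuous_ofReal.tendsto 0).mono_left
          (nhdsWithin_le_nhds (s := Ioi (0 : ℝ)))
        rwa [ENNReal.ofReal_zero] at h5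
      have h5 := ENNReal.Tendsto.const_mul (a := V) h4 (Or.inr hVt)
      rwa [mul_zero] at h5
    obtain ⟨η, hη1, hη2⟩ := (((ENNReal.tendsto_nhds_zero.1 hl2) (ε / 2) hε2).and
      self_mem_nhdsWithin).exists
    have hη0 : (0 : ℝ) < η := hη2
    have hle1 : ∀ᶠ t : ℝ in 𝓝[>] 0, t ≤ 1 := by
      have : ∀ᶠ t : ℝ in 𝓝 0, t ≤ 1 := (eventually_lt_nhds one_pos).mono fun t ht => ht.le
      exact this.filter_mono nhdsWithin_le_nhds
    filter_upwards [e6_unif (h1 n) ξ hη0, hle1, self_mem_nhdsWithin] with t ht ht1 ht0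
    have ht0' : 0 < t := ht0
    have hφ : HW (euc m) 2 univ (φ n) ((euc m).grad (φ n)) := HW.smooth (h1 n).smooth
    have hW := hU.sub one_le_two hφ
    have a1 : MemLp (fun y => ((U ((euc m).mul (pv t ξ) y) - φ n ((euc m).mul (pv t ξ) y)) -
        (U y - φ n y)) / t) 2 (volume.restrict S) := hLS (e6_lq hW ξ t)
    have a2 : MemLp (fun y => (φ n ((euc m).mul (pv t ξ) y) - φ n y) / t -
        inner ℝ ((euc m).grad (φ n) y) ξ) 2 (volume.restrict S) :=
      hLS ((e6_lq hφ ξ t).sub (e6_in hφ.lqg ξ))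
    have a3 : MemLp (fun y => (inner ℝ ((euc m).grad (φ n) y - F y) ξ : ℝ)) 2 (volume.restrict S) :=
      hLS (e6_in (hφ.lqg.sub hU.lqg) ξ)
    have b1 : eLpNorm (fun y => ((U ((euc m).mul (pv t ξ) y) - φ n ((euc m).mul (pv t ξ) y)) -
        (U y - φ n y)) / t) 2 (volume.restrict S) ≤ ENNReal.ofReal ((m : ℝ) + 1) * D n := by
      refine (quot_bd_loc hW hξ ht0' ht1 x ρ).trans ?_
      gcongr
      refine (eLpNorm_mono_measure _ (Measure.restrict_mono hTK le_rfl)).trans (le_of_eq ?_)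
      rw [hD]
      exact eLpNorm_sub_comm _ _ _ _
    have b2 : eLpNorm (fun y => (φ n ((euc m).mul (pv t ξ) y) - φ n y) / t -
        inner ℝ ((euc m).grad (φ n) y) ξ) 2 (volume.restrict S) ≤ V * ENNReal.ofReal η := by
      have h5 := eLpNorm_le_of_ae_bound (p := 2) (μ := volume.restrict S) (C := η)
        (f := fun y => (φ n ((euc m).mul (pv t ξ) y) - φ n y) / t -
          inner ℝ ((euc m).grad (φ n) y) ξ) (Eventually.of_forall fun y => ht y)
      rwa [Measure.restrict_apply_univ] at h5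
    have b3 : eLpNorm (fun y => (inner ℝ ((euc m).grad (φ n) y - F y) ξ : ℝ)) 2 (volume.restrict S) ≤ D n := by
      refine le_trans ?_ (eLpNorm_mono_measure _ hmeas)
      refine eLpNorm_mono fun y => ?_
      have h5 := norm_inner_le_norm (𝕜 := ℝ) ((euc m).grad (φ n) y - F y) ξ
      rwa [hξ, mul_one] at h5
    have e1 : (fun y => (U ((euc m).mul (pv t ξ) y) - U y) / t - inner ℝ (F y) ξ) =
        (fun y => ((U ((euc m).mul (pv t ξ) y) - φ n ((euc m).mul (pv t ξ) y)) - (U y - φ n y)) / t) +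
        ((fun y => (φ n ((euc m).mul (pv t ξ) y) - φ n y) / t - inner ℝ ((euc m).grad (φ n) y) ξ) +
          fun y => (inner ℝ ((euc m).grad (φ n) y - F y) ξ : ℝ)) := by
      funext y
      simp only [Pi.add_apply, inner_sub_left]
      ring
    rw [e1]
    calc _ ≤ ENNReal.ofReal ((m : ℝ) + 1) * D n + (V * ENNReal.ofReal η + D n) := by
          refine (eLpNorm_add_le a1.1 (a2.1.add a3.1) one_le_two).trans (add_le_add b1 ?_)
          exact (eLpNorm_add_le a2.1 a3.1 one_le_two).trans (add_le_add b2 b3)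
      _ = (ENNReal.ofReal ((m : ℝ) + 1) + 1) * D n + V * ENNReal.ofReal η := by ring
      _ ≤ ε / 2 + ε / 2 := add_le_add hn hη1
      _ = ε := ENNReal.add_halves ε
  have key2 : Tendsto (fun t : ℝ => (eLpNorm (fun y => (U ((euc m).mul (pv t ξ) y) - U y) / t -
      inner ℝ (F y) ξ) 2 (volume.restrict S)).toReal ^ 2) (𝓝[>] 0) (𝓝 0) := by
    have h4 := ((ENNReal.tendsto_toReal ENNReal.zero_ne_top).comp key).pow 2
    simpa using h4
  refine key2.congr fun t => ?_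
  rw [← e6_sq (hLS ((e6_lq hU ξ t).sub (e6_in hU.lqg ξ)))]
  refine integral_congr_ae (Eventually.of_forall fun y => ?_)
  simp only [Real.norm_eq_abs, sq_abs]

end Pool.Agent.CG
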