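import Pool.Agent.CG.I.E5
import Pool.Agent.CG.I.E6

/-!
# CG-I-E7 (helper66): functions of the De Giorgi class (levels `≥ 1/2`, uniform constant) close to `⟨F, ξ⟩` in `L²`

PLAN.  `C1 = 4 C0²/c0²` from `exists_appx` (for `G = euc m`).  Given `ε`: `exists_appx` on `B x (4ρ)` with `ε' = ε / (4 (m+1)²)`;
`v = quotient of U + z`, from `dg_quot` for `t < t0`.  `v - ⟨F, ξ⟩ = [(U(pv + ·) - U)/t - ⟨F, ξ⟩] + (z(pv + ·) - z)/t`;
`(a + b)² ≤ 2 a² + 2 b²`; second term `≤ (m+1)² ∫ ‖Z‖² ≤ ε/4` (`quot_bd`, `HW0.hw`, `memz`, `memZ`), first term `≤ ε/4` for small `t` (`quot_l2`).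
Integrability: all functions are in `L²(B x ρ)` (`U` is in `L²_loc`; `F` bounded).
-/

set_option autoImplicit false

namespace Pool.Agent.CG

open MeasureTheory Set Filter Topology
open scoped ContDiff ENNReal

variable {m : ℕ}

theorem exists_quot {a b L : ℝ} (ha0 : 0 ≤ a) (ha : a < 1) (hb : 0 ≤ b) (hL : 1 ≤ L) : ∃ C1 : ℝ,
    ∀ A : Hv m → Hv m, Nrm a b L A → ∀ (U : Pt m → ℝ) (F : Pt m → Hv m), Sol (euc m) 2 univ A U F →
    (∀ᵐ x, ‖F x‖ ≤ 1) → ∀ ξ : Hv m, ‖ξ‖ = 1 → ∀ (x : Pt m) (ρ : ℝ), 0 < ρ → ∀ ε : ℝ, 0 < ε →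
    ∃ (v : Pt m → ℝ) (V : Pt m → Hv m), DG (euc m) ((euc m).B x ρ) v V (1 / 2) C1 ∧
      IntegrableOn (fun y => (v y - inner ℝ (F y) ξ) ^ 2) ((euc m).B x ρ) ∧
      ∫ y in (euc m).B x ρ, (v y - inner ℝ (F y) ξ) ^ 2 ≤ ε := by
  obtain ⟨c0, C0, hc0, hC0, H⟩ := exists_appx (euc m) ha0 ha hb hL
  refine ⟨4 * C0 ^ 2 / c0 ^ 2, ?_⟩
  intro A hA U F hS hF ξ hξ x ρ hρ ε hε
  set M : ℝ := (m : ℝ) + 1 with hM
  have hM0 : 0 < M := by positivity
  obtain ⟨B, z, Z, hAp, hZ⟩ := H A hA U F hS hF x (4 * ρ) (by positivity) (ε / (4 * M ^ 2))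
    (by positivity)
  obtain ⟨t0, ht0, hDG⟩ := dg_quot hc0 hC0 hρ hAp hS.toHW hF hξ
  have hl2 := quot_l2 hS.toHW hξ x ρ
  have hev1 : ∀ᶠ t : ℝ in 𝓝[>] (0 : ℝ), ∫ y in (euc m).B x ρ,
      ((U ((euc m).mul (pv t ξ) y) - U y) / t - inner ℝ (F y) ξ) ^ 2 < ε / 4 :=
    (tendsto_order.1 hl2).2 _ (by positivity)
  have hev2 : ∀ᶠ t : ℝ in 𝓝[>] (0 : ℝ), t ∈ Ioo 0 t0 := Ioo_mem_nhdsGT ht0
  obtain ⟨t, ht1, ht2⟩ := (hev1.and hev2).exists
  have htpos : 0 < t := ht2.1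
  have hz := hAp.hz
  have hb1 := quot_bd (hz.hw (by norm_num)) hz.memz hz.memZ hξ htpos
  refine ⟨_, _, hDG t htpos ht2.2, ?_⟩
  -- the ball is contained in a compact set
  have hK : IsCompact {y | (euc m).di x y ≤ ρ} := (euc m).isCompact_cB x ρ
  have hBK : (euc m).B x ρ ⊆ {y | (euc m).di x y ≤ ρ} := fun y hy => by
    have h : (euc m).di x y < ρ := hy
    exact h.le
  have hle : (volume.restrict ((euc m).B x ρ) : Measure (Pt m)) ≤
      volume.restrict {y | (euc m).di x y ≤ ρ} := Measure.restrict_mono hBK le_rfl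
  have hU1 : MemLp U 2 (volume.restrict ((euc m).B x ρ)) :=
    (hS.lq _ hK (subset_univ _)).mono_measure hle
  have hU2 : MemLp (fun y => U ((euc m).mul (pv t ξ) y)) 2 (volume.restrict ((euc m).B x ρ)) :=
    ((hS.lq.left (euc m) (pv t ξ)) _ hK (fun y _ => mem_univ _)).mono_measure hle
  have hF1 : MemLp F 2 (volume.restrict ((euc m).B x ρ)) :=
    (hS.lqg _ hK (subset_univ _)).mono_measure hle
  have hFi : MemLp (fun y => inner ℝ (F y) ξ) 2 (volume.restrict ((euc m).B x ρ)) :=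
    hF1.inner_const ξ
  have hz1 : MemLp z 2 (volume : Measure (Pt m)) := hz.memz
  have hz2 : MemLp (fun y => z ((euc m).mul (pv t ξ) y)) 2 (volume : Measure (Pt m)) :=
    hz1.comp_measurePreserving ((euc m).mp_left (pv t ξ))
  have ha : MemLp (fun y => (U ((euc m).mul (pv t ξ) y) - U y) / t - inner ℝ (F y) ξ) 2
      (volume.restrict ((euc m).B x ρ)) := by
    have h1 : MemLp (fun y => t⁻¹ * (U ((euc m).mul (pv t ξ) y) - U y)) 2
        (volume.restrict ((euc m).B x ρ)) := (hU2.sub hU1).const_mul t⁻¹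
    have h2 := h1.sub hFi
    refine h2.ae_eq (Eventually.of_forall fun y => ?_)
    simp only [Pi.sub_apply]
    ring
  have hb : MemLp (fun y => (z ((euc m).mul (pv t ξ) y) - z y) / t) 2
      (volume : Measure (Pt m)) := by
    have h1 : MemLp (fun y => t⁻¹ * (z ((euc m).mul (pv t ξ) y) - z y)) 2
        (volume : Measure (Pt m)) := (hz2.sub hz1).const_mul t⁻¹
    refine h1.ae_eq (Eventually.of_forall fun y => ?_)
    simp only
    ring
  have hb' : MemLp (fun y => (z ((euc m).mul (pv t ξ) y) - z y) / t) 2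
      (volume.restrict ((euc m).B x ρ)) := hb.restrict _
  have hsum : MemLp (fun y => ((U ((euc m).mul (pv t ξ) y) + z ((euc m).mul (pv t ξ) y)) -
      (U y + z y)) / t - inner ℝ (F y) ξ) 2 (volume.restrict ((euc m).B x ρ)) := by
    refine (ha.add hb').ae_eq (Eventually.of_forall fun y => ?_)
    simp only [Pi.add_apply]
    ring
  have ia := ha.integrable_sq
  have ib := hb'.integrable_sq
  have ib2 := hb.integrable_sq
  refine ⟨hsum.integrable_sq, ?_⟩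
  have h3 : ∫ y in (euc m).B x ρ, (((U ((euc m).mul (pv t ξ) y) + z ((euc m).mul (pv t ξ) y)) -
      (U y + z y)) / t - inner ℝ (F y) ξ) ^ 2 ≤
      ∫ y in (euc m).B x ρ, (2 * ((U ((euc m).mul (pv t ξ) y) - U y) / t - inner ℝ (F y) ξ) ^ 2 +
        2 * ((z ((euc m).mul (pv t ξ) y) - z y) / t) ^ 2) := by
    refine integral_mono hsum.integrable_sq ((ia.const_mul 2).add (ib.const_mul 2)) ?_
    intro y
    have e1 : ((U ((euc m).mul (pv t ξ) y) + z ((euc m).mul (pv t ξ) y)) - (U y + z y)) / t -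
        inner ℝ (F y) ξ = ((U ((euc m).mul (pv t ξ) y) - U y) / t - inner ℝ (F y) ξ) +
        (z ((euc m).mul (pv t ξ) y) - z y) / t := by ring
    simp only
    rw [e1]
    nlinarith [sq_nonneg (((U ((euc m).mul (pv t ξ) y) - U y) / t - inner ℝ (F y) ξ) -
        (z ((euc m).mul (pv t ξ) y) - z y) / t)]
  have h4 : ∫ y in (euc m).B x ρ,
      (2 * ((U ((euc m).mul (pv t ξ) y) - U y) / t - inner ℝ (F y) ξ) ^ 2 +
        2 * ((z ((euc m).mul (pv t ξ) y) - z y) / t) ^ 2) =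
      2 * (∫ y in (euc m).B x ρ, ((U ((euc m).mul (pv t ξ) y) - U y) / t - inner ℝ (F y) ξ) ^ 2) +
      2 * ∫ y in (euc m).B x ρ, ((z ((euc m).mul (pv t ξ) y) - z y) / t) ^ 2 := by
    rw [integral_add (ia.const_mul 2) (ib.const_mul 2), integral_const_mul, integral_const_mul]
  have h5 : ∫ y in (euc m).B x ρ, ((z ((euc m).mul (pv t ξ) y) - z y) / t) ^ 2 ≤
      ∫ y, ((z ((euc m).mul (pv t ξ) y) - z y) / t) ^ 2 :=
    setIntegral_le_integral ib2 (Eventually.of_forall fun y => sq_nonneg _)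
  have h6 : M ^ 2 * ∫ y, ‖Z y‖ ^ 2 ≤ ε / 4 := by
    have h7 : M ^ 2 * ∫ y, ‖Z y‖ ^ 2 ≤ M ^ 2 * (ε / (4 * M ^ 2)) :=
      mul_le_mul_of_nonneg_left hZ (by positivity)
    have h8 : M ^ 2 * (ε / (4 * M ^ 2)) = ε / 4 := by
      field_simp
    linarith
  refine h3.trans ?_
  rw [h4]
  linarith

end Pool.Agent.CG
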