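import Pool.Agent.CG.I.E7
import Pool.Agent.CG.J.Tst

/-!
# CG-I-LemE (helper66): Lemma E

Functions `v` of the De Giorgi class close to `f = ⟨F, ξ⟩` in `L²` (`exists_quot`); `dg_sup` gives
`v ≤ 1 + s`, `dg_osc` gives `v ≤ 1 + s - c e'/2` on `B x (R/2)`, and `s → 0`.
-/

set_option autoImplicit false

namespace Pool.Agent.CG

open MeasureTheory Set Filter Topology
open scoped ContDiff ENNReal

variable {m : ℕ}

/-- Chebyshev on a smaller ball. -/
private theorem lemE_cheb {N : ℕ} (G : Carnot N m) (x : Pt N) {R ρ a ε : ℝ} (hRρ : R ≤ ρ)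
    (ha : 0 < a) {g : Pt N → ℝ} (hg : ∀ y, 0 ≤ g y) (hi : IntegrableOn g (G.B x ρ))
    (hε : ∫ y in G.B x ρ, g y ≤ ε) : volume.real (G.B x R ∩ {y | a ≤ g y}) ≤ ε / a := by
  have h1 := mul_meas_ge_le_integral_of_nonneg (μ := volume.restrict (G.B x ρ)) (f := g)
    (Eventually.of_forall hg) hi a
  have h2 : volume.real (G.B x R ∩ {y | a ≤ g y}) ≤
      (volume.restrict (G.B x ρ)).real {y | a ≤ g y} := by
    rw [measureReal_def, measureReal_def,
      Measure.restrict_apply' (G.isOpen_B x ρ).measurableSet]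
    refine ENNReal.toReal_mono ?_ (measure_mono ?_)
    · exact ne_top_of_le_ne_top (G.vol_B_lt_top x ρ).ne (measure_mono inter_subset_right)
    · rintro y ⟨h3, h4⟩
      exact ⟨h4, lt_of_lt_of_le (G.mem_B.1 h3) hRρ⟩
  rw [le_div_iff₀ ha, mul_comm]
  exact (mul_le_mul_of_nonneg_left h2 ha.le).trans (h1.trans hε)

theorem lemE {a b L : ℝ} (ha0 : 0 ≤ a) (ha : a < 1) (hb : 0 ≤ b) (hL : 1 ≤ L) {e' η : ℝ} (he0 : 0 < e')
    (he1 : e' < 1) (hη : 0 < η) : ∃ e'' : ℝ, 0 < e'' ∧
    ∀ A : Hv m → Hv m, Nrm a b L A → ∀ (U : Pt m → ℝ) (F : Pt m → Hv m), Sol (euc m) 2 univ A U F →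
    (∀ᵐ x, ‖F x‖ ≤ 1) → ∀ ξ : Hv m, ‖ξ‖ = 1 → ∀ (x : Pt m) (R : ℝ), 0 < R →
    η * volume.real ((euc m).B x R) ≤
      volume.real ((euc m).B x R ∩ {y | inner ℝ (F y) ξ ≤ 1 - e'}) →
    ∀ᵐ y, y ∈ (euc m).B x (R / 4) → inner ℝ (F y) ξ ≤ 1 - e'' := by
  obtain ⟨C1, hC1⟩ := exists_quot (m := m) ha0 ha hb hL
  obtain ⟨Cs, hCs, hsup⟩ := dg_sup (euc m) C1
  obtain ⟨c, hc0, hc1, hosc⟩ := dg_osc (euc m) C1 (η / 2) (by positivity)
  refine ⟨c * e' / 2, by positivity, ?_⟩
  intro A hA U F hU hF ξ hξ x R hR hvol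
  set G : Carnot m m := euc m with hG
  set f : Pt m → ℝ := fun y => inner ℝ (F y) ξ with hf
  have hf1 : ∀ᵐ y, |f y| ≤ 1 := by
    filter_upwards [hF] with y hy
    refine (abs_real_inner_le_norm _ _).trans ?_
    rw [hξ, mul_one]
    exact hy
  have hFm : AEStronglyMeasurable F volume := by
    have h := LqLoc.aesm isOpen_univ hU.lqg
    rwa [Measure.restrict_univ] at h
  have hfm : AEStronglyMeasurable f volume := hFm.inner aestronglyMeasurable_const
  set V : ℝ := volume.real (G.B x R) with hV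
  have hVpos : 0 < V := ENNReal.toReal_pos (G.vol_B_pos x hR).ne' (G.vol_B_lt_top x R).ne
  set K : ℝ := Cs * (8 * R)⁻¹ ^ G.Q with hK
  have hK0 : 0 < K := by positivity
  -- the main estimate
  have key : ∀ ε : ℝ, 0 < ε → ε ≤ e' ^ 2 / 4 * (η / 2 * V) → ∃ v : Pt m → ℝ,
      IntegrableOn (fun y => (v y - f y) ^ 2) (G.B x (8 * R)) ∧
      ∫ y in G.B x (8 * R), (v y - f y) ^ 2 ≤ ε ∧
      ∀ᵐ y, y ∈ G.B x (R / 2) → v y ≤ 1 + Real.sqrt (K * ε) - c * e' / 2 := by
    intro ε hε hεs
    obtain ⟨v, Vg, hDG, hi, hle⟩ := hC1 A hA U F hU hF ξ hξ x (8 * R) (by positivity) ε hε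
    refine ⟨v, hi, hle, ?_⟩
    set s : ℝ := Real.sqrt (K * ε) with hs
    have hs0 : 0 ≤ s := Real.sqrt_nonneg _
    have hs2 : s ^ 2 = K * ε := Real.sq_sqrt (by positivity)
    have hpt : ∀ᵐ y, (max (v y - 1) 0) ^ 2 ≤ (v y - f y) ^ 2 := by
      filter_upwards [hf1] with y hy
      have h1 : f y ≤ 1 := (abs_le.1 hy).2
      rcases le_total (v y - 1) 0 with h | h
      · rw [max_eq_right h]
        nlinarith [sq_nonneg (v y - f y)]
      · rw [max_eq_left h]
        exact pow_le_pow_left₀ h (by linarith) 2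
    have hvm : AEStronglyMeasurable v (volume.restrict (G.B x (8 * R))) :=
      LqLoc.aesm (G.isOpen_B x (8 * R)) hDG.lq
    have hi1 : IntegrableOn (fun y => (max (v y - 1) 0) ^ 2) (G.B x (8 * R)) := by
      refine Integrable.mono' hi ?_ ?_
      · have hc : Continuous fun t : ℝ => (max (t - 1) 0) ^ 2 := by fun_prop
        exact hc.comp_aestronglyMeasurable hvm
      · filter_upwards [ae_restrict_of_ae hpt] with y hy
        rw [Real.norm_eq_abs, abs_of_nonneg (sq_nonneg _)]
        exact hy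
    have hI1 : ∫ y in G.B x (8 * R), (max (v y - 1) 0) ^ 2 ≤ ε :=
      (integral_mono_ae hi1 hi (ae_restrict_of_ae hpt)).trans hle
    have hM : ∀ᵐ y, y ∈ G.B x (4 * R) → v y ≤ 1 + s := by
      have h1 := hsup x (8 * R) (by positivity) v Vg (1 / 2) 1 hDG (by norm_num) hi1
      filter_upwards [h1] with y hy hyB
      have h2 := hy (by
        have : 8 * R / 2 = 4 * R := by ring
        rw [this]
        exact hyB)
      have h3 : (max (v y - 1) 0) ^ 2 ≤ s ^ 2 := by
        refine h2.trans ?_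
        rw [hs2, hK, mul_assoc]
        refine mul_le_mul_of_nonneg_left ?_ hCs.le
        exact mul_le_mul_of_nonneg_left hI1 (by positivity)
      have h4 : max (v y - 1) 0 ≤ s := (pow_le_pow_iff_left₀ (le_max_right _ _) hs0 two_ne_zero).1 h3
      have h5 := le_max_left (v y - 1) 0
      linarith
    have hth : η / 2 * V ≤ volume.real (G.B x R ∩ {y | v y ≤ 1 - e' / 2}) := by
      have h1 : volume.real (G.B x R ∩ {y | f y ≤ 1 - e'}) ≤
          volume.real (G.B x R ∩ {y | v y ≤ 1 - e' / 2}) +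
            volume.real (G.B x R ∩ {y | e' ^ 2 / 4 ≤ (v y - f y) ^ 2}) := by
        refine le_trans (measureReal_mono ?_ ?_) (measureReal_union_le _ _)
        · rintro y ⟨h1, h2⟩
          by_cases h3 : v y ≤ 1 - e' / 2
          · exact Or.inl ⟨h1, h3⟩
          · refine Or.inr ⟨h1, ?_⟩
            have h4 : e' / 2 ≤ v y - f y := by
              have h5 : f y ≤ 1 - e' := h2
              linarith [not_le.1 h3]
            show e' ^ 2 / 4 ≤ (v y - f y) ^ 2
            nlinarith
        · exact ne_top_of_le_ne_top (G.vol_B_lt_top x R).ne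
            (measure_mono (union_subset inter_subset_left inter_subset_left))
      have h2 := lemE_cheb G x (R := R) (ρ := 8 * R) (a := e' ^ 2 / 4) (by linarith)
        (by positivity) (fun y => sq_nonneg (v y - f y)) hi hle
      have h3 : ε / (e' ^ 2 / 4) ≤ η / 2 * V := by
        rw [div_le_iff₀ (by positivity), mul_comm]
        exact hεs
      have h4 : η * V ≤ volume.real (G.B x R ∩ {y | f y ≤ 1 - e'}) := hvol
      linarith
    have hsub : G.B x (4 * R) ⊆ G.B x (8 * R) := fun y hy =>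
      lt_of_lt_of_le (G.mem_B.1 hy) (by linarith)
    have hDG4 : DG G (G.B x (4 * R)) v Vg (1 / 2) C1 := hDG.mono hsub le_rfl le_rfl
    have h6 := hosc x R hR v Vg (1 / 2) (1 - e' / 2) (1 + s) hDG4 (by linarith) (by linarith) hM hth
    filter_upwards [h6] with y hy hyB
    have h7 := hy hyB
    nlinarith [mul_nonneg hc0.le hs0]
  -- conclusion
  set κ : ℝ := 1 - c * e' / 2 with hκ
  set D : Set (Pt m) := G.B x (R / 4) with hD
  have hDm : MeasurableSet D := (G.isOpen_B x (R / 4)).measurableSet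
  have : IsFiniteMeasure (volume.restrict D) := ⟨by
    rw [Measure.restrict_apply_univ]
    exact G.vol_B_lt_top x (R / 4)⟩
  have hgc : Continuous fun t : ℝ => (max (t - κ) 0) ^ 2 := by fun_prop
  have hgi : IntegrableOn (fun y => (max (f y - κ) 0) ^ 2) D := by
    obtain ⟨M, hM⟩ := (isCompact_Icc (a := (-1 : ℝ)) (b := 1)).exists_bound_of_continuousOn
      hgc.continuousOn
    refine Integrable.of_bound (hgc.comp_aestronglyMeasurable hfm.restrict) M ?_
    filter_upwards [ae_restrict_of_ae hf1] with y hy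
    exact hM (f y) (abs_le.1 hy)
  have hnn : 0 ≤ ∫ y in D, (max (f y - κ) 0) ^ 2 := integral_nonneg fun y => sq_nonneg _
  have hbound : ∀ ε : ℝ, 0 < ε → ε ≤ e' ^ 2 / 4 * (η / 2 * V) →
      ∫ y in D, (max (f y - κ) 0) ^ 2 ≤ (2 * K * volume.real D + 2) * ε := by
    intro ε hε hεs
    obtain ⟨v, hi, hle, hv⟩ := key ε hε hεs
    have hs2 : Real.sqrt (K * ε) ^ 2 = K * ε := Real.sq_sqrt (by positivity)
    have hs0 := Real.sqrt_nonneg (K * ε)
    set s := Real.sqrt (K * ε)
    have hDs : D ⊆ G.B x (8 * R) := fun y hy => lt_of_lt_of_le (G.mem_B.1 hy) (by linarith)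
    have hiD : IntegrableOn (fun y => (v y - f y) ^ 2) D := hi.mono_set hDs
    have hpt : ∀ᵐ y ∂(volume.restrict D), (max (f y - κ) 0) ^ 2 ≤ 2 * s ^ 2 + 2 * (v y - f y) ^ 2 := by
      rw [ae_restrict_iff' hDm]
      filter_upwards [hv] with y hy hyD
      have h1 := hy (lt_of_lt_of_le (G.mem_B.1 hyD) (by linarith))
      rcases le_total (f y - κ) 0 with h | h
      · rw [max_eq_right h]
        nlinarith [sq_nonneg s, sq_nonneg (v y - f y)]
      · rw [max_eq_left h]
        have h2 : f y - κ ≤ s + |v y - f y| := by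
          have h3 := neg_abs_le (v y - f y)
          rw [hκ]
          linarith
        have h4 : (f y - κ) ^ 2 ≤ (s + |v y - f y|) ^ 2 := pow_le_pow_left₀ h h2 2
        have h5 : |v y - f y| ^ 2 = (v y - f y) ^ 2 := sq_abs _
        nlinarith [sq_nonneg (s - |v y - f y|)]
    calc ∫ y in D, (max (f y - κ) 0) ^ 2
        ≤ ∫ y in D, (2 * s ^ 2 + 2 * (v y - f y) ^ 2) :=
          integral_mono_ae hgi ((integrable_const _).add (hiD.const_mul 2)) hpt
      _ = 2 * s ^ 2 * volume.real D + 2 * ∫ y in D, (v y - f y) ^ 2 := by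
          have e1 : ∫ y in D, 2 * (v y - f y) ^ 2 = 2 * ∫ y in D, (v y - f y) ^ 2 :=
            integral_const_mul _ _
          rw [integral_add (integrable_const _) (hiD.const_mul 2), e1,
            integral_const, measureReal_restrict_apply_univ, smul_eq_mul, mul_comm (volume.real D)]
      _ ≤ 2 * s ^ 2 * volume.real D + 2 * ε := by
          have h1 : ∫ y in D, (v y - f y) ^ 2 ≤ ε :=
            (setIntegral_mono_set hi (Eventually.of_forall fun y => sq_nonneg _)
              (Eventually.of_forall hDs)).trans hle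
          linarith
      _ = (2 * K * volume.real D + 2) * ε := by
          rw [hs2]
          ring
  have hzero : ∫ y in D, (max (f y - κ) 0) ^ 2 = 0 := by
    refine le_antisymm ?_ hnn
    by_contra hne
    have hpos : 0 < ∫ y in D, (max (f y - κ) 0) ^ 2 := not_le.1 hne
    set I := ∫ y in D, (max (f y - κ) 0) ^ 2
    set Cc : ℝ := 2 * K * volume.real D + 2 with hCc
    have hCc0 : 0 < Cc := by
      have : 0 ≤ volume.real D := measureReal_nonneg
      positivity
    set ε0 : ℝ := min (e' ^ 2 / 4 * (η / 2 * V)) (I / (2 * Cc)) with hε0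
    have h1 : 0 < ε0 := lt_min (by positivity) (by positivity)
    have h2 := hbound ε0 h1 (min_le_left _ _)
    have h3 : Cc * ε0 ≤ Cc * (I / (2 * Cc)) :=
      mul_le_mul_of_nonneg_left (min_le_right _ _) hCc0.le
    have h4 : Cc * (I / (2 * Cc)) = I / 2 := by
      field_simp
    linarith
  have h9 := (setIntegral_eq_zero_iff_of_nonneg_ae
    (Eventually.of_forall fun y => sq_nonneg (max (f y - κ) 0)) hgi).1 hzero
  have h10 := (ae_restrict_iff' hDm).1 h9
  filter_upwards [h10] with y hy hyD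
  have h11 : (max (f y - κ) 0) ^ 2 = 0 := hy hyD
  have h12 : max (f y - κ) 0 = 0 := pow_eq_zero_iff two_ne_zero |>.1 h11
  have h13 := le_max_left (f y - κ) 0
  rw [h12] at h13
  show f y ≤ 1 - c * e' / 2
  linarith

end Pool.Agent.CG
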