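import Pool.Agent.CG.Defs

/-!
# CG, PART I: the largest point of the essential range
-/

set_option autoImplicit false

namespace Pool.Agent.CG.I

open MeasureTheory Set Filter Topology
open scoped ContDiff ENNReal

variable {N m : ℕ}

/-- Functions locally in `L^q` are strongly measurable. -/
theorem aesm_univ {F' : Type} [NormedAddCommGroup F'] {q : ℝ≥0∞} {f : Pt N → F'}
    (hf : LqLoc q univ f) : AEStronglyMeasurable f volume := by
  have h1 : ∀ K : Set (Pt N), IsCompact K → AEStronglyMeasurable f (volume.restrict K) :=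
    fun K hK => (hf K hK (subset_univ K)).1
  have h2 : AEStronglyMeasurable f (volume.restrict (⋃ n : ℕ, Metric.closedBall (0 : Pt N) n)) := by
    rw [aestronglyMeasurable_iUnion_iff]
    intro n
    exact h1 _ (isCompact_closedBall _ _)
  have h3 : (⋃ n : ℕ, Metric.closedBall (0 : Pt N) n) = univ := by
    rw [eq_univ_iff_forall]
    intro x
    obtain ⟨n, hn⟩ := exists_nat_ge (dist x 0)
    exact mem_iUnion.2 ⟨n, hn⟩
  rwa [h3, Measure.restrict_univ] at h2

/-- The essential range of a bounded function has a point of maximal norm. -/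
theorem exists_top {F : Pt N → Hv m} (hF : ∀ᵐ x, ‖F x‖ ≤ 1) :
    ∃ v : Hv m, (∀ᵐ x, ‖F x‖ ≤ ‖v‖) ∧ ‖v‖ ≤ 1 ∧ ∀ ε : ℝ, 0 < ε → volume {x | ‖F x - v‖ < ε} ≠ 0 := by
  set S : Set (Hv m) := {v | ∀ ε : ℝ, 0 < ε → volume {x | ‖F x - v‖ < ε} ≠ 0} with hS
  -- almost every value is in the essential range
  have hae : ∀ᵐ x, F x ∈ S := by
    have h1 : (OuterMeasure.map F (volume : Measure (Pt N)).toOuterMeasure) Sᶜ = 0 := by
      refine measure_null_of_locally_null _ ?_
      intro v hv
      have hv' : ∃ ε : ℝ, 0 < ε ∧ volume {x | ‖F x - v‖ < ε} = 0 := by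
        by_contra hcon
        push Not at hcon
        exact hv hcon
      obtain ⟨ε, hε, h0⟩ := hv'
      refine ⟨Metric.ball v ε, mem_nhdsWithin_of_mem_nhds (Metric.ball_mem_nhds v hε), ?_⟩
      rw [OuterMeasure.map_apply]
      have : F ⁻¹' Metric.ball v ε = {x | ‖F x - v‖ < ε} := by
        ext x
        simp [dist_eq_norm]
      rw [this]
      exact h0
    rw [OuterMeasure.map_apply] at h1
    exact h1
  have hcl : IsClosed S := by
    rw [← closure_subset_iff_isClosed]
    intro v hv ε hε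
    obtain ⟨v', hv', hd⟩ := Metric.mem_closure_iff.1 hv (ε / 2) (half_pos hε)
    have h1 := hv' (ε / 2) (half_pos hε)
    intro h0
    refine h1 (measure_mono_null ?_ h0)
    intro x hx
    rw [mem_ofPred_eq] at hx ⊢
    rw [dist_eq_norm] at hd
    have h2 : ‖F x - v‖ ≤ ‖F x - v'‖ + ‖v - v'‖ := by
      have := norm_sub_le (F x - v') (v - v')
      rwa [sub_sub_sub_cancel_right] at this
    linarith
  have hbd : ∀ v ∈ S, ‖v‖ ≤ 1 := by
    intro v hv
    by_contra hcon
    push Not at hcon
    refine hv (‖v‖ - 1) (by linarith) ?_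
    refine measure_mono_null ?_ hF
    intro x hx
    rw [mem_ofPred_eq] at hx
    intro hx1
    rw [mem_ofPred_eq] at hx1
    have h2 : ‖v‖ ≤ ‖F x‖ + ‖F x - v‖ := by
      have := norm_sub_le (F x) (F x - v)
      rwa [sub_sub_cancel] at this
    linarith
  have hcpt : IsCompact S := by
    refine (isCompact_closedBall (0 : Hv m) 1).of_isClosed_subset hcl ?_
    intro v hv
    rw [mem_closedBall_zero_iff]
    exact hbd v hv
  have hne : S.Nonempty := by
    obtain ⟨x, hx⟩ := hae.exists
    exact ⟨F x, hx⟩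
  obtain ⟨v, hv, hmax⟩ := hcpt.exists_isMaxOn hne continuous_norm.continuousOn
  refine ⟨v, ?_, hbd v hv, hv⟩
  filter_upwards [hae] with x hx
  exact hmax hx

end Pool.Agent.CG.I
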